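import Pool.Agent.W249.SM.RA
import Pool.Agent.H628R4.TP.Defs

/-!
# SM-RA for the algebraic definition of a functional equation, complex coefficients
-/

set_option autoImplicit false

namespace Pool.Agent.W422.SM

open MvPolynomial Pool.Agent.W426.SM Pool.Agent.W249.SM Finset

variable {n k : ℕ}

/-- `∑ c_j x ^ m_j` over the complex numbers -/
noncomputable def gCc (m : Fin k → Fin n → ℕ) (c : Fin k → ℂ) : MvPolynomial (Fin n) ℂ :=
  ∑ j, monomial (toF (m j)) (c j)

/-- the polynomial over the complex numbers -/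
noncomputable def fCc (A : Fin n → ℕ) (m : Fin k → Fin n → ℕ) (c : Fin k → ℂ) (e : ℕ) :
    MvPolynomial (Fin n) ℂ := monomial (toF A) 1 * gCc m c ^ e


/-- the coefficient of `x ^ Phi t` -/
noncomputable def KKc (c : Fin k → ℂ) (t : Fin k → ℕ) : ℂ :=
  ((Nat.multinomial univ t : ℕ) : ℂ) * ∏ j, (c j) ^ t j

theorem KKc_ne (c : Fin k → ℂ) (hc : ∀ j, c j ≠ 0) (t : Fin k → ℕ) : KKc c t ≠ 0 := by
  unfold KKc
  refine mul_ne_zero ?_ (prod_ne_zero_iff.mpr fun j _ => pow_ne_zero _ ?_)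
  · exact_mod_cast (Nat.multinomial_pos _ _).ne'
  · exact hc j

theorem gCc_pow (m : Fin k → Fin n → ℕ) (c : Fin k → ℂ) (M : ℕ) :
    gCc m c ^ M = ∑ t ∈ piAntidiag univ M, monomial (Phi m t) (KKc c t) := by
  classical
  unfold gCc
  rw [sum_pow_eq_sum_piAntidiag]
  refine sum_congr rfl fun t _ => ?_
  have h1 : ∀ j, (monomial (toF (m j)) (c j)) ^ t j =
      monomial (t j • toF (m j)) ((c j) ^ t j) := fun j => monomial_pow
  rw [prod_congr rfl fun j _ => h1 j, ← monomial_sum_prod]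
  have h2 : ((Nat.multinomial univ t : ℕ) : MvPolynomial (Fin n) ℂ) =
      C ((Nat.multinomial univ t : ℕ) : ℂ) := by simp
  rw [h2, C_mul_monomial]
  rfl

theorem fCc_pow (A : Fin n → ℕ) (m : Fin k → Fin n → ℕ) (c : Fin k → ℂ) (e N : ℕ) :
    fCc A m c e ^ N =
      ∑ t ∈ piAntidiag univ (e * N), monomial (N • toF A + Phi m t) (KKc c t) := by
  unfold fCc
  rw [mul_pow, ← pow_mul, gCc_pow, mul_sum, monomial_pow, one_pow]
  refine sum_congr rfl fun t _ => ?_
  rw [monomial_mul, one_mul]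


/-- the right hand side -/
theorem coeff_fCc_pow (A : Fin n → ℕ) (m : Fin k → Fin n → ℕ) (hm : AffInd m) (c : Fin k → ℂ)
    (e N : ℕ) (t : Fin k → ℕ) (ht : t ∈ piAntidiag univ (e * N)) :
    coeff (N • toF A + Phi m t) (fCc A m c e ^ N) = KKc c t := by
  classical
  rw [fCc_pow, coeff_sum, sum_eq_single t]
  · rw [coeff_monomial, if_pos rfl]
  · intro t' ht' hne
    rw [coeff_monomial, if_neg]
    intro h
    apply hne
    have h1 : Phi m t' = Phi m t := add_left_cancel h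
    have h2 := aff_unique m hm (fun j => (t' j : ℤ)) (fun j => (t j : ℤ)) ?_ ?_
    · funext j; exact_mod_cast congrFun h2 j
    · have h3 := sum_of_mem ht
      have h4 := sum_of_mem ht'
      exact_mod_cast h4.trans h3.symm
    · intro i
      have h3 := DFunLike.congr_fun h1 i
      rw [Phi_apply, Phi_apply] at h3
      exact_mod_cast h3
  · intro h; exact absurd ht h


/-- the contribution of one operator monomial -/
noncomputable def SSc (A : Fin n → ℕ) (m : Fin k → Fin n → ℕ) (c : Fin k → ℂ) (e N : ℕ)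
    (α β v : Fin n →₀ ℕ) : ℂ :=
  ∑ t' ∈ piAntidiag univ (e * (N + 1)),
    if β + (((N + 1) • toF A + Phi m t') - α) = v then
      KKc c t' * ∏ i, (((((N + 1) • toF A + Phi m t' : Fin n →₀ ℕ) i).descFactorial (α i) : ℕ) : ℂ)
    else 0


theorem SSc_not (A : Fin n → ℕ) (m : Fin k → Fin n → ℕ) (c : Fin k → ℂ) (e N : ℕ)
    (α β : Fin n →₀ ℕ) (t : Fin k → ℕ) (ht : t ∈ piAntidiag univ (e * N))
    (h : ¬ ∃ ω, Has A m e α β ω) : SSc A m c e N α β (N • toF A + Phi m t) = 0 := by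
  unfold SSc
  refine sum_eq_zero fun t' ht' => ?_
  split_ifs with hv
  · by_cases hα : ∀ i, α i ≤ ((N + 1) • toF A + Phi m t' : Fin n →₀ ℕ) i
    · exact absurd ⟨_, term_has A m e N α β t t' ht ht' hα hv⟩ h
    · rw [term_zero A m N α t' hα, mul_zero]
  · rfl


/-- ratio of the coefficients -/
theorem KKc_ratio (c : Fin k → ℂ) (hc : ∀ j, c j ≠ 0) (e N : ℕ) (ω : Fin k → ℤ)
    (t t' : Fin k → ℕ) (ht : t ∈ piAntidiag univ (e * N))
    (ht' : t' ∈ piAntidiag univ (e * (N + 1))) (h : ∀ j, (t' j : ℤ) = t j - ω j) :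
    KKc c t' = KKc c t * (∏ j, (c j) ^ (-ω j)) *
      (∏ r ∈ range e, (((e * N : ℕ) : ℂ) + (r + 1))) * ∏ j, ff (ω j) (t j) := by
  have h1 := Nat.multinomial_spec (univ : Finset (Fin k)) t
  have h2 := Nat.multinomial_spec (univ : Finset (Fin k)) t'
  rw [sum_of_mem ht] at h1
  rw [sum_of_mem ht'] at h2
  have h1' : (∏ j, ((t j).factorial : ℂ)) * ((Nat.multinomial univ t : ℕ) : ℂ) =
      (((e * N).factorial : ℕ) : ℂ) := by exact_mod_cast h1
  have h2' : (∏ j, ((t' j).factorial : ℂ)) * ((Nat.multinomial univ t' : ℕ) : ℂ) =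
      (((e * (N + 1)).factorial : ℕ) : ℂ) := by exact_mod_cast h2
  have h3 : (((e * (N + 1)).factorial : ℕ) : ℂ) =
      (((e * N).factorial : ℕ) : ℂ) * ∏ r ∈ range e, (((e * N : ℕ) : ℂ) + (r + 1)) := by
    rw [mul_add, mul_one, fac_asc]
  have h4 : ∏ j, ((t j).factorial : ℂ) = (∏ j, ((t' j).factorial : ℂ)) * ∏ j, ff (ω j) (t j) := by
    rw [← prod_mul_distrib]
    exact prod_congr rfl fun j _ => ff_fac (t j) (t' j) (ω j) (h j)
  have h5 : (∏ j, ((t' j).factorial : ℂ)) ≠ 0 :=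
    prod_ne_zero_iff.mpr fun j _ => by exact_mod_cast (Nat.factorial_ne_zero _)
  have h6 : ((Nat.multinomial univ t' : ℕ) : ℂ) = ((Nat.multinomial univ t : ℕ) : ℂ) *
      (∏ r ∈ range e, (((e * N : ℕ) : ℂ) + (r + 1))) * ∏ j, ff (ω j) (t j) := by
    apply mul_left_cancel₀ h5
    rw [h2', h3, ← h1', h4]
    ring
  have h7 : ∏ j, (c j) ^ t' j =
      (∏ j, (c j) ^ t j) * ∏ j, (c j) ^ (-ω j) := by
    rw [← prod_mul_distrib]
    refine prod_congr rfl fun j _ => ?_
    have hcj : c j ≠ 0 := hc j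
    rw [← zpow_natCast, h j, sub_eq_add_neg, zpow_add₀ hcj, zpow_natCast]
  unfold KKc
  rw [h6, h7]
  ring

/-- the contribution of an operator monomial with a shift -/
theorem SSc_has (A : Fin n → ℕ) (m : Fin k → Fin n → ℕ) (hm : AffInd m) (c : Fin k → ℂ)
    (hc : ∀ j, c j ≠ 0) (e N : ℕ) (α β : Fin n →₀ ℕ) (t : Fin k → ℕ)
    (ht : t ∈ piAntidiag univ (e * N)) (ω : Fin k → ℤ) (h : Has A m e α β ω) :
    SSc A m c e N α β (N • toF A + Phi m t) =
      KKc c t * ((∏ j, (c j) ^ (-ω j)) *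
        (∏ r ∈ range e, (((e * N : ℕ) : ℂ) + (r + 1))) * (∏ j, ff (ω j) (t j)) *
        ∏ i, ∏ r ∈ range (α i), ((N : ℂ) * A i + ∑ j, (t j : ℂ) * m j i -
          ((β i : ℂ) - α i) - r)) := by
  classical
  by_cases hω : ∀ j, ω j ≤ t j
  · set t' : Fin k → ℕ := fun j => ((t j : ℤ) - ω j).toNat with ht'def
    have ht'j : ∀ j, (t' j : ℤ) = t j - ω j := fun j => by
      rw [ht'def]; exact Int.toNat_of_nonneg (by linarith [hω j])
    have ht' : t' ∈ piAntidiag univ (e * (N + 1)) := by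
      refine mem_of_sum ?_
      have h1 := sum_of_mem ht
      have h2 : (∑ j, (t' j : ℤ)) = e * (N + 1) := by
        rw [sum_congr rfl fun j _ => ht'j j, sum_sub_distrib, h.1]
        have h3 : (∑ j, (t j : ℤ)) = e * N := by exact_mod_cast h1
        rw [h3]; ring
      exact_mod_cast h2
    -- the exponents
    have hU : ∀ i, ((((N + 1) • toF A + Phi m t' : Fin n →₀ ℕ) i : ℕ) : ℤ) =
        N * A i + ∑ j, (t j : ℤ) * m j i - ((β i : ℤ) - α i) := by
      intro i
      rw [U_apply]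
      push_cast
      have h4 : ∑ j, (t' j : ℤ) * (m j i : ℤ) =
          ∑ j, (t j : ℤ) * (m j i : ℤ) - ∑ j, ω j * (m j i : ℤ) := by
        rw [← sum_sub_distrib]
        exact sum_congr rfl fun j _ => by rw [ht'j]; ring
      have h5 := h.2 i
      rw [h4]
      linarith
    have hUC : ∀ i, ((((N + 1) • toF A + Phi m t' : Fin n →₀ ℕ) i : ℕ) : ℂ) =
        (N : ℂ) * A i + ∑ j, (t j : ℂ) * m j i - ((β i : ℂ) - α i) := by
      intro i
      have := congrArg (fun z : ℤ => (z : ℂ)) (hU i)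
      push_cast at this
      exact this
    have hprod : ∏ i, ∏ r ∈ range (α i), ((N : ℂ) * A i + ∑ j, (t j : ℂ) * m j i -
          ((β i : ℂ) - α i) - r) =
        ∏ i, (((((N + 1) • toF A + Phi m t' : Fin n →₀ ℕ) i).descFactorial (α i) : ℕ) : ℂ) := by
      refine prod_congr rfl fun i _ => ?_
      rw [desc_cast, hUC]
    unfold SSc
    rw [sum_eq_single t']
    · rw [hprod]
      by_cases hα : ∀ i, α i ≤ ((N + 1) • toF A + Phi m t' : Fin n →₀ ℕ) i
      · rw [if_pos, KKc_ratio c hc e N ω t t' ht ht' ht'j]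
        · ring
        · ext i
          rw [Finsupp.add_apply, Finsupp.tsub_apply]
          have h1 := hU i
          have h2 := hα i
          have h3 : ((N • toF A + Phi m t : Fin n →₀ ℕ) i : ℤ) =
              N * A i + ∑ j, (t j : ℤ) * m j i := by
            rw [U_apply]; push_cast; rfl
          omega
      · rw [term_zero A m N α t' hα]
        simp
    · intro t'' ht'' hne
      split_ifs with hv
      · by_cases hα : ∀ i, α i ≤ ((N + 1) • toF A + Phi m t'' : Fin n →₀ ℕ) i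
        · exfalso
          apply hne
          have h1 := has_unique A m hm e α β _ _ (term_has A m e N α β t t'' ht ht'' hα hv) h
          funext j
          have h2 : (t j : ℤ) - t'' j = ω j := congrFun h1 j
          have h3 := ht'j j
          omega
        · rw [term_zero A m N α t'' hα, mul_zero]
      · rfl
    · intro hh; exact absurd ht' hh
  · push Not at hω
    obtain ⟨j₀, hj₀⟩ := hω
    have h1 : ∏ j, ff (ω j) (t j) = 0 := prod_eq_zero (mem_univ j₀) (ff_zero _ _ hj₀)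
    rw [h1]
    unfold SSc
    simp only [mul_zero, zero_mul]
    refine sum_eq_zero fun t' ht' => ?_
    split_ifs with hv
    · by_cases hα : ∀ i, α i ≤ ((N + 1) • toF A + Phi m t' : Fin n →₀ ℕ) i
      · exfalso
        have h1 := has_unique A m hm e α β _ _ (term_has A m e N α β t t' ht ht' hα hv) h
        have h2 : (t j₀ : ℤ) - t' j₀ = ω j₀ := congrFun h1 j₀
        omega
      · rw [term_zero A m N α t' hα, mul_zero]
    · rfl


theorem DD_fCc (A : Fin n → ℕ) (m : Fin k → Fin n → ℕ) (c : Fin k → ℂ) (e N r : ℕ)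
    (w : Fin r → Fin n) :
    DD r w (fCc A m c e ^ (N + 1)) =
      ∑ t ∈ piAntidiag univ (e * (N + 1)),
        monomial (((N + 1) • toF A + Phi m t) - cnt w)
          (KKc c t * ∏ i, (((((N + 1) • toF A + Phi m t : Fin n →₀ ℕ) i).descFactorial
            (cnt w i) : ℕ) : ℂ)) := by
  rw [fCc_pow, DD_sum]
  exact sum_congr rfl fun t _ => DD_monomial _ _ _ _

theorem coeff_lhsc (A : Fin n → ℕ) (m : Fin k → Fin n → ℕ) (c : Fin k → ℂ) (e N r : ℕ)
    (w : Fin r → Fin n) (P : MvPolynomial (Option (Fin n)) ℂ) (v : Fin n →₀ ℕ) :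
    coeff v (spec N P * DD r w (fCc A m c e ^ (N + 1))) =
      ∑ d ∈ P.support, (coeff d P * (N : ℂ) ^ d none) * SSc A m c e N (cnt w) d.some v := by
  classical
  rw [spec_expand, sum_mul, coeff_sum]
  refine sum_congr rfl fun d _ => ?_
  rw [DD_fCc, mul_sum, coeff_sum]
  unfold SSc
  rw [mul_sum]
  refine sum_congr rfl fun t _ => ?_
  rw [monomial_mul, coeff_monomial]
  split_ifs
  · rfl
  · rw [mul_zero]

theorem fCc_ne (A : Fin n → ℕ) (m : Fin k → Fin n → ℕ) (hm : AffInd m) (c : Fin k → ℂ)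
    (hc : ∀ j, c j ≠ 0) (hk : 0 < k) (e : ℕ) : fCc A m c e ≠ 0 := by
  classical
  intro h0
  have ht : (Pi.single (⟨0, hk⟩ : Fin k) e : Fin k → ℕ) ∈ piAntidiag univ (e * 1) := by
    refine mem_of_sum ?_
    rw [sum_pi_single' (⟨0, hk⟩ : Fin k) e univ]
    simp
  have h1 := coeff_fCc_pow A m hm c e 1 _ ht
  rw [h0] at h1
  simp only [pow_one, coeff_zero] at h1
  exact KKc_ne c hc _ h1.symm


open Classical in
theorem nat_identityc (A : Fin n → ℕ) (m : Fin k → Fin n → ℕ) (hm : AffInd m) (c : Fin k → ℂ)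
    (hc : ∀ j, c j ≠ 0) (e : ℕ) (b : Polynomial ℂ) (M : ℕ)
    (cc : Fin M → MvPolynomial (Option (Fin n)) ℂ) (kk : Fin M → ℕ)
    (w : (j : Fin M) → Fin (kk j) → Fin n)
    (hid : ∀ N : ℕ, ∑ j, spec N (cc j) * DD (kk j) (w j) (fCc A m c e ^ (N + 1)) =
      C (b.eval (N : ℂ)) * fCc A m c e ^ N)
    (ω : {l : II M cc // ∃ ω, Has A m e (cnt (w l.1)) (Finsupp.some l.2.1) ω} → Fin k → ℤ)
    (hω : ∀ l, Has A m e (cnt (w l.1.1)) (Finsupp.some l.1.2.1) (ω l))
    (N : ℕ) (t : Fin k → ℕ) (ht : t ∈ piAntidiag univ (e * N)) :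
    b.eval (N : ℂ) = ∑ l : {l : II M cc // ∃ ω, Has A m e (cnt (w l.1)) (Finsupp.some l.2.1) ω},
      (coeff l.1.2.1 (cc l.1.1) * (N : ℂ) ^ l.1.2.1 none) *
      ((∏ j, (c j) ^ (-ω l j)) *
        (∏ r ∈ range e, (((e * N : ℕ) : ℂ) + (r + 1))) * (∏ j, ff (ω l j) (t j)) *
        ∏ i, ∏ r ∈ range (cnt (w l.1.1) i), ((N : ℂ) * A i + ∑ j, (t j : ℂ) * m j i -
          ((Finsupp.some l.1.2.1 i : ℂ) - cnt (w l.1.1) i) - r)) := by
  classical
  have h1 := congrArg (coeff (N • toF A + Phi m t)) (hid N)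
  rw [coeff_sum, coeff_C_mul, coeff_fCc_pow A m hm c e N t ht,
    sum_congr rfl fun j _ => coeff_lhsc A m c e N (kk j) (w j) (cc j) _] at h1
  have h2 : ∑ j, ∑ d ∈ (cc j).support, (coeff d (cc j) * (N : ℂ) ^ d none) *
      SSc A m c e N (cnt (w j)) d.some (N • toF A + Phi m t) =
      ∑ l : II M cc, (coeff l.2.1 (cc l.1) * (N : ℂ) ^ l.2.1 none) *
        SSc A m c e N (cnt (w l.1)) (Finsupp.some l.2.1) (N • toF A + Phi m t) := by
    rw [Fintype.sum_sigma]
    refine sum_congr rfl fun j _ => ?_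
    exact (sum_coe_sort (cc j).support (fun d => (coeff d (cc j) * (N : ℂ) ^ d none) *
      SSc A m c e N (cnt (w j)) d.some (N • toF A + Phi m t))).symm
  rw [h2] at h1
  have h3 := Fintype.sum_subtype_add_sum_subtype
    (fun l : II M cc => ∃ ω, Has A m e (cnt (w l.1)) (Finsupp.some l.2.1) ω)
    (fun l : II M cc => (coeff l.2.1 (cc l.1) * (N : ℂ) ^ l.2.1 none) *
        SSc A m c e N (cnt (w l.1)) (Finsupp.some l.2.1) (N • toF A + Phi m t))
  rw [← h3] at h1
  have h4 : ∑ l : {l : II M cc // ¬ ∃ ω, Has A m e (cnt (w l.1)) (Finsupp.some l.2.1) ω},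
      (coeff l.1.2.1 (cc l.1.1) * (N : ℂ) ^ l.1.2.1 none) *
        SSc A m c e N (cnt (w l.1.1)) (Finsupp.some l.1.2.1) (N • toF A + Phi m t) = 0 := by
    refine sum_eq_zero fun l _ => ?_
    rw [SSc_not A m c e N _ _ t ht l.2, mul_zero]
  rw [h4, add_zero] at h1
  have h5 := KKc_ne c hc t
  apply mul_right_cancel₀ h5
  rw [← h1, sum_mul]
  refine sum_congr rfl fun l _ => ?_
  rw [SSc_has A m hm c hc e N _ _ t ht (ω l) (hω l)]
  ring


/-! ### normal form of the elements of the Weyl algebra -/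

/-- the value at `g` of the differential operator given by a list -/
noncomputable def opv (l : List (MvPolynomial (Fin n) ℂ × (Σ r : ℕ, Fin r → Fin n)))
    (g : MvPolynomial (Fin n) ℂ) : MvPolynomial (Fin n) ℂ :=
  (l.map fun t => t.1 * DD t.2.1 t.2.2 g).sum

theorem opv_nil (g : MvPolynomial (Fin n) ℂ) : opv ([] : List (MvPolynomial (Fin n) ℂ × (Σ r : ℕ, Fin r → Fin n))) g = 0 := rfl

theorem opv_cons (t : MvPolynomial (Fin n) ℂ × (Σ r : ℕ, Fin r → Fin n))
    (l : List (MvPolynomial (Fin n) ℂ × (Σ r : ℕ, Fin r → Fin n)))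
    (g : MvPolynomial (Fin n) ℂ) : opv (t :: l) g = t.1 * DD t.2.1 t.2.2 g + opv l g := by
  simp [opv]

theorem opv_append (l l' : List (MvPolynomial (Fin n) ℂ × (Σ r : ℕ, Fin r → Fin n)))
    (g : MvPolynomial (Fin n) ℂ) : opv (l ++ l') g = opv l g + opv l' g := by
  simp [opv]

theorem opv_mul (P : MvPolynomial (Fin n) ℂ)
    (l : List (MvPolynomial (Fin n) ℂ × (Σ r : ℕ, Fin r → Fin n)))
    (g : MvPolynomial (Fin n) ℂ) : opv (l.map fun t => (P * t.1, t.2)) g = P * opv l g := by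
  induction l with
  | nil => simp [opv_nil]
  | cons t l ih => rw [List.map_cons, opv_cons, opv_cons, ih]; ring

theorem opv_pderiv (i : Fin n)
    (l : List (MvPolynomial (Fin n) ℂ × (Σ r : ℕ, Fin r → Fin n)))
    (g : MvPolynomial (Fin n) ℂ) :
    opv (l.map fun t => (pderiv i t.1, t.2)) g +
      opv (l.map fun t => (t.1, (⟨t.2.1 + 1, Fin.cons i t.2.2⟩ : Σ r : ℕ, Fin r → Fin n))) g =
      pderiv i (opv l g) := by
  induction l with
  | nil => simp [opv_nil]
  | cons t l ih =>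
    have h1 : DD (t.2.1 + 1) (Fin.cons i t.2.2 : Fin (t.2.1 + 1) → Fin n) g =
        pderiv i (DD t.2.1 t.2.2 g) := by
      simp [DD]
    rw [List.map_cons, List.map_cons, opv_cons, opv_cons, opv_cons, map_add, ← ih, pderiv_mul]
    simp only [h1]
    ring

theorem weyl_nf (Q : Module.End ℂ (MvPolynomial (Fin n) ℂ))
    (hQ : Q ∈ Pool.Agent.H628R4.TP.weylS (Fin n)) :
    ∃ l : List (MvPolynomial (Fin n) ℂ × (Σ r : ℕ, Fin r → Fin n)), ∀ g, Q g = opv l g := by
  unfold Pool.Agent.H628R4.TP.weylS at hQ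
  rw [← Subalgebra.mem_toSubmodule, Algebra.adjoin_eq_span] at hQ
  induction hQ using Submodule.span_induction with
  | zero => exact ⟨[], fun g => rfl⟩
  | add Q₁ Q₂ _ _ h₁ h₂ =>
    obtain ⟨l₁, h₁⟩ := h₁
    obtain ⟨l₂, h₂⟩ := h₂
    exact ⟨l₁ ++ l₂, fun g => by rw [opv_append, ← h₁, ← h₂]; rfl⟩
  | smul a Q₁ _ h₁ =>
    obtain ⟨l₁, h₁⟩ := h₁
    exact ⟨l₁.map fun t => (C a * t.1, t.2), fun g => by
      rw [opv_mul, ← h₁, LinearMap.smul_apply, smul_eq_C_mul]⟩
  | mem Q₁ hQ₁ =>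
    induction hQ₁ using Submonoid.closure_induction_left with
    | one => exact ⟨[(1, ⟨0, Fin.elim0⟩)], fun g => by simp [opv, DD]⟩
    | mul_left x hx y _ ih =>
      obtain ⟨l, hl⟩ := ih
      rcases hx with ⟨i, rfl⟩ | ⟨i, rfl⟩
      · exact ⟨l.map fun t => (X i * t.1, t.2), fun g => by
          rw [opv_mul, ← hl]; rfl⟩
      · exact ⟨(l.map fun t => (pderiv i t.1, t.2)) ++
          (l.map fun t => (t.1, (⟨t.2.1 + 1, Fin.cons i t.2.2⟩ : Σ r : ℕ, Fin r → Fin n))),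
          fun g => by rw [opv_append, opv_pderiv, ← hl]; rfl⟩

theorem spec_mk (N m : ℕ) (P : MvPolynomial (Fin n) ℂ) :
    spec N (X none ^ m * rename Option.some P) = C ((N : ℂ) ^ m) * P := by
  unfold spec
  rw [map_mul, map_pow, aeval_X, aeval_rename]
  have h1 : (fun o : Option (Fin n) => (Option.elim o (C (N : ℂ)) X : MvPolynomial (Fin n) ℂ)) ∘ Option.some = X := by
    funext i; rfl
  rw [h1]
  simp

/-- from a functional equation to a finite identity -/
theorem exists_hid (f : MvPolynomial (Fin n) ℂ) (b : Polynomial ℂ)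
    (hb : Pool.Agent.H628R4.TP.IsBFunction f b) :
    ∃ (M : ℕ) (cc : Fin M → MvPolynomial (Option (Fin n)) ℂ) (kk : Fin M → ℕ)
      (w : (j : Fin M) → Fin (kk j) → Fin n),
      ∀ N : ℕ, ∑ j, spec N (cc j) * DD (kk j) (w j) (f ^ (N + 1)) =
        C (b.eval (N : ℂ)) * f ^ N := by
  obtain ⟨P, hP⟩ := hb
  have hnf : ∀ Q : Pool.Agent.H628R4.TP.weylS (Fin n),
      ∃ l : List (MvPolynomial (Fin n) ℂ × (Σ r : ℕ, Fin r → Fin n)),
        ∀ g, (Q : Module.End ℂ (MvPolynomial (Fin n) ℂ)) g = opv l g :=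
    fun Q => weyl_nf Q.1 Q.2
  choose nf hnf using hnf
  -- the list of all terms
  let LL : List (MvPolynomial (Option (Fin n)) ℂ × (Σ r : ℕ, Fin r → Fin n)) :=
    P.support.toList.flatMap fun m => (nf (P m)).map fun t =>
      (X none ^ m * rename Option.some t.1, t.2)
  have hLL : ∀ N : ℕ, (LL.map fun t => spec N t.1 * DD t.2.1 t.2.2 (f ^ (N + 1))).sum =
      C (b.eval (N : ℂ)) * f ^ N := by
    intro N
    rw [hP N]
    have h1 : ∀ m, (((nf (P m)).map fun t =>
        ((X none ^ m * rename Option.some t.1 : MvPolynomial (Option (Fin n)) ℂ), t.2)).map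
          fun t => spec N t.1 * DD t.2.1 t.2.2 (f ^ (N + 1))).sum =
        ((N : ℂ) ^ m) • (P m : Module.End ℂ (MvPolynomial (Fin n) ℂ)) (f ^ (N + 1)) := by
      intro m
      rw [hnf, smul_eq_C_mul]
      generalize nf (P m) = l
      induction l with
      | nil => simp [opv_nil]
      | cons t l ih =>
        rw [List.map_cons, List.map_cons, List.sum_cons, ih, opv_cons, spec_mk]
        ring
    show ((P.support.toList.flatMap fun m => (nf (P m)).map fun t =>
      ((X none ^ m * rename Option.some t.1 : MvPolynomial (Option (Fin n)) ℂ), t.2)).map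
        fun t => spec N t.1 * DD t.2.1 t.2.2 (f ^ (N + 1))).sum = _
    rw [List.map_flatMap, Finsupp.sum, ← Finset.sum_map_toList]
    generalize P.support.toList = S
    induction S with
    | nil => simp
    | cons m S ih =>
      rw [List.flatMap_cons, List.sum_append, List.map_cons, List.sum_cons, ih, h1]
  refine ⟨LL.length, fun j => (LL.get j).1, fun j => (LL.get j).2.1, fun j => (LL.get j).2.2,
    fun N => ?_⟩
  rw [← hLL N]
  rw [← List.sum_ofFn]
  congr 1
  have h2 : (fun j : Fin LL.length => spec N (LL.get j).1 *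
      DD (LL.get j).2.1 (LL.get j).2.2 (f ^ (N + 1))) =
      (fun t : MvPolynomial (Option (Fin n)) ℂ × (Σ r : ℕ, Fin r → Fin n) =>
        spec N t.1 * DD t.2.1 t.2.2 (f ^ (N + 1))) ∘ LL.get := rfl
  rw [h2, ← List.map_ofFn, List.ofFn_get]

/-! ### the main theorem -/

/-- RA from the polynomial identities at the natural numbers -/
theorem ra_of_hid (A : Fin n → ℕ) (m : Fin k → Fin n → ℕ) (hm : AffInd m) (c : Fin k → ℂ)
    (hc : ∀ j, c j ≠ 0) (e : ℕ) (he : 0 < e) (b : Polynomial ℂ) (M : ℕ)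
    (cc : Fin M → MvPolynomial (Option (Fin n)) ℂ) (kk : Fin M → ℕ)
    (w : (j : Fin M) → Fin (kk j) → Fin n)
    (hid : ∀ N : ℕ, ∑ j, spec N (cc j) * DD (kk j) (w j) (fCc A m c e ^ (N + 1)) =
      C (b.eval (N : ℂ)) * fCc A m c e ^ N) :
    ∃ (L : ℕ) (q : Fin L → Polynomial ℂ) (ω : Fin L → Fin k → ℤ) (α β : Fin L → Fin n → ℕ),
      (∀ l, ∑ j, ω l j = -(e : ℤ)) ∧
      (∀ l i, (β l i : ℤ) - α l i = -(A i : ℤ) + ∑ j, ω l j * m j i) ∧
      ∀ t : Fin k → ℂ, (∀ (j : Fin k) (r : ℕ), t j ≠ -((r : ℂ) + 1)) →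
        b.eval ((∑ j, t j) / e) =
          ∑ l, (q l).eval ((∑ j, t j) / e) * (∏ r ∈ Finset.range e, ((∑ j, t j) + (r + 1))) *
            (∏ j, ff (ω l j) (t j)) *
            ∏ i, ∏ r ∈ Finset.range (α l i),
              ((∑ j, t j) / e * A i + ∑ j, t j * m j i - ((β l i : ℂ) - α l i) - r) := by
  classical
  have hex : ∀ l : {l : II M cc // ∃ ω, Has A m e (cnt (w l.1)) (Finsupp.some l.2.1) ω},
      ∃ ω, Has A m e (cnt (w l.1.1)) (Finsupp.some l.1.2.1) ω := fun l => l.2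
  choose ω hω using hex
  have hnat := nat_identityc A m hm c hc e b M cc kk w hid ω hω
  -- the index type
  let J := {l : II M cc // ∃ ω, Has A m e (cnt (w l.1)) (Finsupp.some l.2.1) ω}
  let E : J ≃ Fin (Fintype.card J) := Fintype.equivFin J
  let α : J → Fin n → ℕ := fun l i => cnt (w l.1.1) i
  let β : J → Fin n → ℕ := fun l i => Finsupp.some l.1.2.1 i
  let q : J → Polynomial ℂ := fun l =>
    Polynomial.C (coeff l.1.2.1 (cc l.1.1) * ∏ j, (c j) ^ (-ω l j)) *
      Polynomial.X ^ (l.1.2.1 none)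
  have hq : ∀ (l : J) (x : ℂ), (q l).eval x =
      (coeff l.1.2.1 (cc l.1.1) * ∏ j, (c j) ^ (-ω l j)) * x ^ (l.1.2.1 none) := by
    intro l x
    simp only [q, Polynomial.eval_mul, Polynomial.eval_C, Polynomial.eval_pow, Polynomial.eval_X]
  have heC : (e : ℂ) ≠ 0 := by exact_mod_cast he.ne'
  -- the bound for the denominators
  let M₀ : ℕ := ∑ l : J, ∑ j, (-(ω l j)).toNat
  have hM₀ : ∀ (l : J) j, (-(ω l j)).toNat ≤ M₀ := by
    intro l j
    calc (-(ω l j)).toNat ≤ ∑ j, (-(ω l j)).toNat :=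
          single_le_sum (f := fun j => (-(ω l j)).toNat) (fun _ _ => Nat.zero_le _) (mem_univ j)
      _ ≤ M₀ := single_le_sum (f := fun l : J => ∑ j, (-(ω l j)).toNat)
          (fun _ _ => Nat.zero_le _) (mem_univ l)
  let Dn : (Fin k → ℂ) → ℂ := fun t => ∏ j, ∏ r ∈ range M₀, (t j + ((r : ℂ) + 1))
  let tail : J → (Fin k → ℂ) → ℂ := fun l t =>
    ∏ i, ∏ r ∈ range (α l i), ((∑ j, t j) / e * A i + ∑ j, t j * m j i -
      ((β l i : ℂ) - α l i) - r)
  let F : (Fin k → ℂ) → ℂ := fun t => Dn t * b.eval ((∑ j, t j) / e)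
  let G : (Fin k → ℂ) → ℂ := fun t => ∑ l : J, (q l).eval ((∑ j, t j) / e) *
    (∏ r ∈ range e, ((∑ j, t j) + ((r : ℂ) + 1))) * (∏ j, ffp M₀ (ω l j) (t j)) * tail l t
  have hS : PF (fun t : Fin k → ℂ => (∑ j, t j) / e) := by
    have : (fun t : Fin k → ℂ => (∑ j, t j) / (e : ℂ)) = fun t => (∑ j, t j) * (e : ℂ)⁻¹ := by
      funext t; rw [div_eq_mul_inv]
    rw [this]
    exact PF.total.mul (PF.const _)
  have hDn : PF Dn := PF.prod _ fun j => PF.prod _ fun r => (PF.coord j).add (PF.const _)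
  have hF : PF F := hDn.mul (hS.evalPoly b)
  have hG : PF G := by
    refine PF.sum _ fun l => ?_
    refine PF.mul (PF.mul (PF.mul (hS.evalPoly _) (PF.prod _ fun r => PF.total.add (PF.const _)))
      (PF.prod _ fun j => ?_)) (PF.prod _ fun i => PF.prod _ fun r => ?_)
    · exact PF.mul (PF.prod _ fun r => (PF.coord j).sub (PF.const _))
        (PF.prod _ fun r => (PF.coord j).add (PF.const _))
    · exact (((hS.mul (PF.const _)).add (PF.sum _ fun j => (PF.coord j).mul (PF.const _))).sub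
        (PF.const _)).sub (PF.const _)
  -- replacing `ffp` by `ff`
  have hrep : ∀ t : Fin k → ℂ, (∀ (j : Fin k) (r : ℕ), t j ≠ -((r : ℂ) + 1)) →
      G t = Dn t * ∑ l : J, (q l).eval ((∑ j, t j) / e) *
        (∏ r ∈ range e, ((∑ j, t j) + ((r : ℂ) + 1))) * (∏ j, ff (ω l j) (t j)) * tail l t := by
    intro t ht
    show ∑ l : J, _ = _
    rw [mul_sum]
    refine sum_congr rfl fun l _ => ?_
    have h1 : ∏ j, ffp M₀ (ω l j) (t j) = Dn t * ∏ j, ff (ω l j) (t j) := by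
      show _ = (∏ j, _) * _
      rw [← prod_mul_distrib]
      exact prod_congr rfl fun j _ => (ffp_eq M₀ (ω l j) (t j) (hM₀ l j) (ht j)).symm
    rw [h1]
    ring
  have hFG : F = G := by
    refine eq_of_PF hF hG e he fun t => ?_
    have hsum : (∑ j, ((e * t j : ℕ) : ℂ)) = ((e * ∑ j, t j : ℕ) : ℂ) := by
      rw [mul_sum]; push_cast; rfl
    have hdiv : (∑ j, ((e * t j : ℕ) : ℂ)) / (e : ℂ) = ((∑ j, t j : ℕ) : ℂ) := by
      rw [hsum, Nat.cast_mul, mul_div_cancel_left₀ _ heC]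
    rw [hrep]
    · show Dn _ * _ = _
      congr 1
      have h1 := hnat (∑ j, t j) (fun j => e * t j) (mem_of_sum (by rw [← mul_sum]))
      rw [hdiv, h1]
      refine sum_congr rfl fun l _ => ?_
      rw [hq]
      show _ = _ * _ * _ * ∏ i, ∏ r ∈ range (α l i), (((∑ j, ((e * t j : ℕ) : ℂ)) / (e : ℂ)) * A i +
        ∑ j, ((e * t j : ℕ) : ℂ) * m j i - ((β l i : ℂ) - α l i) - r)
      rw [hdiv, hsum]
      ring
    · intro j r h0
      have h1 : ((e * t j : ℕ) : ℂ) + ((r : ℂ) + 1) = 0 := by rw [h0]; ring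
      have h2 : ((e * t j + (r + 1) : ℕ) : ℂ) = 0 := by push_cast; push_cast at h1; exact h1
      have h3 : e * t j + (r + 1) = 0 := by exact_mod_cast h2
      omega
  -- conclusion
  refine ⟨Fintype.card J, fun l => q (E.symm l), fun l => ω (E.symm l), fun l => α (E.symm l),
    fun l => β (E.symm l), fun l => (hω (E.symm l)).1, fun l i => (hω (E.symm l)).2 i, ?_⟩
  intro t ht
  have h1 : F t = G t := congrFun hFG t
  rw [hrep t ht] at h1
  have hD : Dn t ≠ 0 := by
    refine prod_ne_zero_iff.mpr fun j _ => prod_ne_zero_iff.mpr fun r _ h0 => ht j r ?_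
    exact eq_neg_of_add_eq_zero_left h0
  have h2 := mul_left_cancel₀ hD h1
  rw [h2]
  exact (Equiv.sum_comp E.symm (fun l : J => (q l).eval ((∑ j, t j) / e) *
        (∏ r ∈ range e, ((∑ j, t j) + ((r : ℂ) + 1))) * (∏ j, ff (ω l j) (t j)) * tail l t)).symm


theorem rac (A : Fin n → ℕ) (m : Fin k → Fin n → ℕ) (hm : AffInd m) (c : Fin k → ℂ)
    (hc : ∀ j, c j ≠ 0) (e : ℕ) (he : 0 < e) (b : Polynomial ℂ)
    (hb : Pool.Agent.H628R4.TP.IsBFunction
      ((∏ i, X i ^ A i) * (∑ j, C (c j) * ∏ i, X i ^ m j i) ^ e) b) :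
    ∃ (L : ℕ) (q : Fin L → Polynomial ℂ) (ω : Fin L → Fin k → ℤ) (α β : Fin L → Fin n → ℕ),
      (∀ l, ∑ j, ω l j = -(e : ℤ)) ∧
      (∀ l i, (β l i : ℤ) - α l i = -(A i : ℤ) + ∑ j, ω l j * m j i) ∧
      ∀ t : Fin k → ℂ, (∀ (j : Fin k) (r : ℕ), t j ≠ -((r : ℂ) + 1)) →
        b.eval ((∑ j, t j) / e) =
          ∑ l, (q l).eval ((∑ j, t j) / e) * (∏ r ∈ Finset.range e, ((∑ j, t j) + (r + 1))) *
            (∏ j, ff (ω l j) (t j)) *
            ∏ i, ∏ r ∈ Finset.range (α l i),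
              ((∑ j, t j) / e * A i + ∑ j, t j * m j i - ((β l i : ℂ) - α l i) - r) := by
  have hf : ((∏ i, X i ^ A i) * (∑ j, C (c j) * ∏ i, X i ^ m j i) ^ e :
      MvPolynomial (Fin n) ℂ) = fCc A m c e := by
    unfold fCc gCc
    rw [← prodX]
    congr 1
    congr 1
    refine Finset.sum_congr rfl fun j _ => ?_
    rw [prodX, C_mul_monomial, mul_one]
  rw [hf] at hb
  obtain ⟨M, cc, kk, w, hid⟩ := exists_hid _ b hb
  exact ra_of_hid A m hm c hc e he b M cc kk w hid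

end Pool.Agent.W422.SM
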