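import Pool.Agent.W426.SM.Main
import Pool.Agent.W422.SM.RAC

/-!
# Root side, from an abstract functional equation in the exponents
-/

set_option autoImplicit false

namespace Pool.Agent.W422.SM

open Finset Pool.Agent.W426.SM

/-- the roots, from the conclusion of RA -/
theorem root_of_RA {n k : ℕ} (A : Fin n → ℕ) (m : Fin k → Fin n → ℕ) (e : ℕ)
    (hk : 2 ≤ k) (he : 0 < e) (hA : ∀ i, A i ≠ 0 ∨ ∀ j, m j i ≠ 1) (b : Polynomial ℂ)
    (hRA : ∃ (L : ℕ) (q : Fin L → Polynomial ℂ) (ω : Fin L → Fin k → ℤ)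
      (α β : Fin L → Fin n → ℕ),
      (∀ l, ∑ j, ω l j = -(e : ℤ)) ∧
      (∀ l i, (β l i : ℤ) - α l i = -(A i : ℤ) + ∑ j, ω l j * m j i) ∧
      ∀ t : Fin k → ℂ, (∀ (j : Fin k) (r : ℕ), t j ≠ -((r : ℂ) + 1)) →
        b.eval ((∑ j, t j) / e) =
          ∑ l, (q l).eval ((∑ j, t j) / e) * (∏ r ∈ Finset.range e, ((∑ j, t j) + (r + 1))) *
            (∏ j, ff (ω l j) (t j)) *
            ∏ i, ∏ r ∈ Finset.range (α l i),
              ((∑ j, t j) / e * A i + ∑ j, t j * m j i - ((β l i : ℂ) - α l i) - r)) :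
    (∀ r : ℕ, 1 ≤ r → r ≤ e → b.eval (-((r : ℂ) / e)) = 0) ∧
    ∀ a : Fin n → ℕ, IsRay m a → 0 < ford A m e a →
      b.eval (-(((∑ i, a i : ℕ) : ℂ) / ford A m e a)) = 0 := by
  obtain ⟨L, q, ω, α, β, hω1, hω2, hid⟩ := hRA
  have heC : (e : ℂ) ≠ 0 := by exact_mod_cast he.ne'
  have part1 : ∀ r : ℕ, 1 ≤ r → r ≤ e → b.eval (-((r : ℂ) / e)) = 0 := by
    intro r hr1 hr2
    set i0 : Fin k := ⟨0, by omega⟩ with hi0
    set i1 : Fin k := ⟨1, by omega⟩ with hi1
    have h01 : i0 ≠ i1 := by simp [hi0, hi1]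
    set t : Fin k → ℂ := fun j => if j = i0 then (1 / 2 : ℂ) else
      if j = i1 then (-(r : ℂ) - 1 / 2) else 0 with ht
    have hsum : ∑ j, t j = -(r : ℂ) := by
      have e1 : ∑ j, t j = t i0 + t i1 := by
        rw [← Finset.sum_pair h01]
        symm
        apply Finset.sum_subset (Finset.subset_univ _)
        intro j _ hj
        simp only [Finset.mem_insert, Finset.mem_singleton, not_or] at hj
        simp [ht, hj.1, hj.2]
      rw [e1]
      simp only [ht, if_true, if_neg h01.symm]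
      ring
    have htne : ∀ (j : Fin k) (r' : ℕ), t j ≠ -((r' : ℂ) + 1) := by
      intro j r' h
      simp only [ht] at h
      split_ifs at h
      · have h' := congrArg Complex.re h
        simp at h'
        have : (0 : ℝ) < (2 : ℝ)⁻¹ := by norm_num
        have h2 : (0 : ℝ) ≤ r' := Nat.cast_nonneg _
        linarith
      · have h' : (2 * (r : ℂ) + 1) = 2 * r' + 2 := by linear_combination -2 * h
        have h'' : (2 * r + 1 : ℕ) = 2 * r' + 2 := by exact_mod_cast h'
        omega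
      · have h' : ((r' + 1 : ℕ) : ℂ) = 0 := by push_cast; linear_combination h
        have h'' : r' + 1 = 0 := by exact_mod_cast h'
        omega
    have := hid t htne
    rw [hsum] at this
    rw [show -((r : ℂ) / e) = -(r : ℂ) / e by ring, this]
    apply Finset.sum_eq_zero
    intro l _
    have hz : ∏ r' ∈ Finset.range e, (-(r : ℂ) + ((r' : ℂ) + 1)) = 0 := by
      apply Finset.prod_eq_zero (i := r - 1)
      · rw [Finset.mem_range]; omega
      · have : ((r - 1 : ℕ) : ℂ) = (r : ℂ) - 1 := by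
          rw [Nat.cast_sub hr1]; simp
        rw [this]; ring
    rw [hz]; ring
  refine ⟨part1, fun a ha hford => ?_⟩
  rcases Pool.Agent.W85.SMRL.main A m e a (by omega) he hA ha hford with ⟨r, hr1, hr2, hr⟩ | h
  · have := part1 r hr1 hr2
    have e1 : (((∑ i, a i : ℕ) : ℂ) / ford A m e a) = (r : ℂ) / e := by
      have h2 := congrArg (fun x : ℚ => (x : ℂ)) hr
      simp only [Rat.cast_div, Rat.cast_natCast] at h2
      exact h2
    rw [e1]; exact this
  · obtain ⟨t₀, Λ, p, h1, h2, h3, h4, h5, h6⟩ := h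
    exact root_core rc A m e a he hford t₀ Λ p h1 h2 h3 h4 h5 h6 b q ω α β hω1 hω2 hid

end Pool.Agent.W422.SM
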