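import Pool.Agent.W422.SM.P
import Pool.Agent.W422.SM.Root

/-!
# Poles of the Poincare series, for every prime
-/

set_option autoImplicit false
set_option linter.unusedSectionVars false

namespace Pool.Agent.W422.SM

open MeasureTheory Pool.Agent.W426.SM Pool.Agent.W424.SM.ZMU Pool.Agent.W22.SM.ZMA

variable {n k : ℕ}

/-- the polynomial `x ^ A * (∑_j c_j x ^ m_j) ^ e` over the integers -/
noncomputable def zpoly (A : Fin n → ℕ) (m : Fin k → Fin n → ℕ) (c : Fin k → ℤ) (e : ℕ) :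
    MvPolynomial (Fin n) ℤ :=
  (∏ i, MvPolynomial.X i ^ A i) *
    (∑ j, MvPolynomial.C (c j) * ∏ i, MvPolynomial.X i ^ m j i) ^ e

/-- `T₀` is a pole of the rational function `P`: every denominator of `P` vanishes at `T₀` -/
def IsPole (P : PowerSeries ℂ) (T₀ : ℂ) : Prop :=
  ∀ A B : Polynomial ℂ, B ≠ 0 → (B : PowerSeries ℂ) * P = (A : PowerSeries ℂ) → B.eval T₀ = 0

lemma aeval_zpoly (p : ℕ) [Fact p.Prime] (A : Fin n → ℕ) (m : Fin k → Fin n → ℕ)
    (c : Fin k → ℤ) (e : ℕ) (x : Fin n → ℤ_[p]) :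
    MvPolynomial.aeval x (zpoly A m c e) = FF A m (fun j => (c j : ℤ_[p])) e x := by
  unfold zpoly FF GG XX
  simp only [map_mul, map_prod, map_pow, map_sum, MvPolynomial.aeval_X, MvPolynomial.aeval_C]
  rfl

/-- the denominator -/
noncomputable def den (p : ℕ) (A : Fin n → ℕ) (m : Fin k → Fin n → ℕ) (e : ℕ) {E : ℕ}
    (ray : Fin E → Fin n → ℕ) : Polynomial ℂ :=
  (1 - Polynomial.C ((p : ℂ)⁻¹) * Polynomial.X ^ e) *
    ∏ q, (1 - Polynomial.C (((p : ℂ)⁻¹) ^ (∑ i, ray q i)) * Polynomial.X ^ ford A m e (ray q))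

lemma den_eval (p : ℕ) (A : Fin n → ℕ) (m : Fin k → Fin n → ℕ) (e : ℕ) {E : ℕ}
    (ray : Fin E → Fin n → ℕ) (T : ℂ) : (den p A m e ray).eval T =
      (1 - ((p : ℂ)⁻¹) * T ^ e) * (∏ q, (1 - WW p T (ford A m e) (ray q))) := by
  unfold den WW
  simp [Polynomial.eval_prod]

variable {p : ℕ} [hp : Fact p.Prime]

lemma den_ne (A : Fin n → ℕ) (m : Fin k → Fin n → ℕ) (e : ℕ) {E : ℕ}
    (ray : Fin E → Fin n → ℕ) (hray : ∀ q, ray q ≠ 0) : den p A m e ray ≠ 0 := by
  intro h
  have h1 := congrArg (Polynomial.eval 1) h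
  rw [den_eval, Polynomial.eval_zero] at h1
  have h2 : ∀ s : ℕ, s ≠ 0 → (1 : ℂ) - ((p : ℂ)⁻¹) ^ s ≠ 0 := by
    intro s hs h
    have h3 : ((p : ℂ)⁻¹) ^ s = 1 := (sub_eq_zero.1 h).symm
    have h4 := congrArg norm h3
    rw [norm_pow, norm_one] at h4
    have h5 := pow_lt_one₀ (norm_nonneg _) (norm_q (p := p)) hs
    rw [h4] at h5
    exact lt_irrefl _ h5
  rcases mul_eq_zero.1 h1 with h3 | h3
  · have := h2 1 one_ne_zero
    simp only [one_pow, mul_one, pow_one] at this h3
    exact this h3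
  · obtain ⟨q, -, hq⟩ := Finset.prod_eq_zero_iff.1 h3
    unfold WW at hq
    rw [one_pow, mul_one] at hq
    refine h2 _ ?_ hq
    intro h0
    apply hray q
    funext i
    exact (Finset.sum_eq_zero_iff.1 h0) i (Finset.mem_univ i)

/-- rationality of the Poincare series, with the denominator of the rays -/
theorem poincare_rational (A : Fin n → ℕ) (m : Fin k → Fin n → ℕ) (c : Fin k → ℤ) (e : ℕ)
    (hm : AffInd m) (hc : ∀ j, c j ≠ 0) (hk : 0 < k) (he : 0 < e) :
    ∃ (E : ℕ) (ray : Fin E → Fin n → ℕ) (Q : Polynomial ℂ), (∀ q, IsRay m (ray q)) ∧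
      (den p A m e ray : PowerSeries ℂ) * poincare (zpoly A m c e) p = (Q : PowerSeries ℂ) := by
  let _ : MeasurableSpace (Fin n → ℤ_[p]) := borel _
  have _ : BorelSpace (Fin n → ℤ_[p]) := ⟨rfl⟩
  set c' : Fin k → ℤ_[p] := fun j => (c j : ℤ_[p]) with hc'
  have hc'0 : ∀ j, c' j ≠ 0 := fun j => by
    simp only [hc']
    exact_mod_cast hc j
  obtain ⟨E, ray, hray, R, hR⟩ := zeta_rational (p := p) hk A m hm c' hc'0 e
  set V : ℝ := ((Measure.addHaar : Measure (Fin n → ℤ_[p])) Set.univ).toReal with hV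
  have hV0 : 0 < V := by
    refine ENNReal.toReal_pos ?_ (measure_ne_top _ _)
    exact (isOpen_univ.measure_pos _ Set.univ_nonempty).ne'
  have hVC : (V : ℂ) ≠ 0 := by exact_mod_cast hV0.ne'
  set a : ℕ → ℝ := fun M => (solCount (zpoly A m c e) p M : ℝ) / ((p : ℝ) ^ n) ^ M with ha
  have hDM : ∀ M, ((Measure.addHaar : Measure (Fin n → ℤ_[p])) (DM A m c' e M)).toReal =
      V * a M := by
    intro M
    rw [← measure_sol]
    congr 2
    unfold DM
    ext x
    simp only [Set.mem_ofPred_eq, aeval_zpoly]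
    rfl
  have hlev : ∀ M, ((Measure.addHaar : Measure (Fin n → ℤ_[p]))
      (DM A m c' e M \ DM A m c' e (M + 1))).toReal = V * (a M - a (M + 1)) := by
    intro M
    have hsub : DM A m c' e (M + 1) ⊆ DM A m c' e M := fun y hy =>
      (pow_dvd_pow _ (by omega)).trans hy
    rw [measure_sdiff hsub (meas_DM A m c' e _).nullMeasurableSet (measure_ne_top _ _),
      ENNReal.toReal_sub_of_le (measure_mono hsub) (measure_ne_top _ _), hDM, hDM]
    ring
  have ha0 : a 0 = 1 := by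
    have h1 := hDM 0
    have h2 : DM A m c' e 0 = Set.univ := by
      ext x
      simp [DM]
    rw [h2] at h1
    have h3 : V * 1 = V * a 0 := by rw [mul_one]; exact h1
    exact (mul_left_cancel₀ hV0.ne' h3).symm
  set z : ℕ → ℂ := fun M => ((a M - a (M + 1) : ℝ) : ℂ) with hz
  have hsum : ∀ T : ℂ, ‖T‖ ≤ 1 → HasSum (fun M => z M * T ^ M) ((V : ℂ)⁻¹ * ZT A m c' e T) := by
    intro T hT
    have h1 := (hasSum_level hk A m hm c' hc'0 e he hT).mul_left ((V : ℂ)⁻¹)
    have h2 : (fun M => z M * T ^ M) = fun M => (V : ℂ)⁻¹ *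
        ((((Measure.addHaar : Measure (Fin n → ℤ_[p]))
          (DM A m c' e M \ DM A m c' e (M + 1))).toReal : ℂ) * T ^ M) := by
      funext M
      rw [hlev M]
      simp only [hz]
      push_cast
      field_simp
    rw [h2]
    exact h1
  have hps : (den p A m e ray : PowerSeries ℂ) * PowerSeries.mk z =
      ((Polynomial.C ((V : ℂ)⁻¹) * R : Polynomial ℂ) : PowerSeries ℂ) := by
    refine ps_of_eval _ _ z (fun T hT => (hsum T hT.le).summable.norm) fun T hT => ?_
    rw [(hsum T hT.le).tsum_eq, den_eval, Polynomial.eval_mul, Polynomial.eval_C, ← hR T hT.le]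
    ring
  -- the value at one
  have hone : (den p A m e ray - Polynomial.X * (Polynomial.C ((V : ℂ)⁻¹) * R)).eval 1 = 0 := by
    have h1 := hR 1 (by simp)
    beta_reduce at h1
    rw [ZT_one hk A m hm c' hc'0 e, ← hV, ← den_eval] at h1
    rw [Polynomial.eval_sub, Polynomial.eval_mul, Polynomial.eval_mul, Polynomial.eval_C,
      Polynomial.eval_X, ← h1]
    field_simp
    ring
  obtain ⟨Q, hQ⟩ := Polynomial.dvd_iff_isRoot.2 hone
  refine ⟨E, ray, -Q, hray, ?_⟩
  have hP : (1 - PowerSeries.X) * poincare (zpoly A m c e) p =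
      1 - PowerSeries.X * PowerSeries.mk z := by
    ext M
    rcases M with _ | M
    · simp [poincare, sub_mul]
      have h1 : ((a 0 : ℝ) : ℂ) = 1 := by rw [ha0]; simp
      simpa [ha] using h1
    · rw [sub_mul, one_mul, map_sub, map_sub, PowerSeries.coeff_succ_X_mul,
        PowerSeries.coeff_succ_X_mul, PowerSeries.coeff_mk]
      simp only [poincare, PowerSeries.coeff_mk, hz, ha]
      rw [PowerSeries.coeff_one, if_neg (Nat.succ_ne_zero M)]
      push_cast
      ring
  have h1X : (1 - PowerSeries.X : PowerSeries ℂ) ≠ 0 := by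
    intro h
    have := congrArg (PowerSeries.coeff 0) h
    simp at this
  apply mul_left_cancel₀ h1X
  calc (1 - PowerSeries.X) * ((den p A m e ray : PowerSeries ℂ) * poincare (zpoly A m c e) p)
      = (den p A m e ray : PowerSeries ℂ) * ((1 - PowerSeries.X) *
          poincare (zpoly A m c e) p) := by ring
    _ = (den p A m e ray : PowerSeries ℂ) - PowerSeries.X *
        ((den p A m e ray : PowerSeries ℂ) * PowerSeries.mk z) := by rw [hP]; ring
    _ = ((den p A m e ray - Polynomial.X * (Polynomial.C ((V : ℂ)⁻¹) * R) : Polynomial ℂ) :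
          PowerSeries ℂ) := by
        rw [hps]
        push_cast
        ring
    _ = _ := by
        rw [hQ]
        push_cast
        simp
        ring

/-- the roots of the denominator -/
theorem den_root (A : Fin n → ℕ) (m : Fin k → Fin n → ℕ) (e : ℕ) (he : 0 < e) {E : ℕ}
    (ray : Fin E → Fin n → ℕ) (hray : ∀ q, ray q ≠ 0) (T₀ : ℂ)
    (h : (den p A m e ray).eval T₀ = 0) :
    -Real.log ‖T₀‖ / Real.log p = -(1 / (e : ℝ)) ∨
    ∃ q, 0 < ford A m e (ray q) ∧ -Real.log ‖T₀‖ / Real.log p =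
      -(((∑ i, ray q i : ℕ) : ℝ) / ford A m e (ray q)) := by
  have hp1 : (1 : ℝ) < p := by exact_mod_cast hp.out.one_lt
  have hp0 : (0 : ℝ) < p := by linarith
  have hlp : 0 < Real.log p := Real.log_pos hp1
  have key : ∀ s N : ℕ, 1 - ((p : ℂ)⁻¹) ^ s * T₀ ^ N = 0 →
      (N : ℝ) * Real.log ‖T₀‖ = s * Real.log p := by
    intro s N h1
    have h2 : ((p : ℂ)⁻¹) ^ s * T₀ ^ N = 1 := (sub_eq_zero.1 h1).symm
    have h3 := congrArg norm h2
    rw [norm_mul, norm_pow, norm_pow, norm_inv, Complex.norm_natCast, norm_one] at h3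
    have h4 : ‖T₀‖ ^ N = (p : ℝ) ^ s := by
      have h5 : (p : ℝ) ^ s ≠ 0 := pow_ne_zero _ hp0.ne'
      rw [inv_pow] at h3
      field_simp at h3
      exact h3
    have h6 := congrArg Real.log h4
    rwa [Real.log_pow, Real.log_pow] at h6
  rw [den_eval] at h
  rcases mul_eq_zero.1 h with h1 | h1
  · left
    have h2 := key 1 e (by rw [pow_one]; exact h1)
    have he0 : (e : ℝ) ≠ 0 := by exact_mod_cast he.ne'
    rw [Nat.cast_one, one_mul] at h2
    rw [← h2]
    have hl : Real.log ‖T₀‖ ≠ 0 := by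
      intro h0
      rw [h0, mul_zero] at h2
      exact hlp.ne h2
    field_simp
  · right
    obtain ⟨q, -, hq⟩ := Finset.prod_eq_zero_iff.1 h1
    have h2 := key (∑ i, ray q i) (ford A m e (ray q)) hq
    have hs : (∑ i, ray q i) ≠ 0 := by
      intro h0
      apply hray q
      funext i
      exact (Finset.sum_eq_zero_iff.1 h0) i (Finset.mem_univ i)
    have hN : ford A m e (ray q) ≠ 0 := by
      intro h0
      rw [h0, Nat.cast_zero, zero_mul] at h2
      have h3 : ((∑ i, ray q i : ℕ) : ℝ) * Real.log p ≠ 0 :=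
        mul_ne_zero (by exact_mod_cast hs) hlp.ne'
      exact h3 h2.symm
    refine ⟨q, Nat.pos_of_ne_zero hN, ?_⟩
    have hN0 : (ford A m e (ray q) : ℝ) ≠ 0 := by exact_mod_cast hN
    rw [neg_div, neg_inj, div_eq_div_iff hlp.ne' hN0]
    linarith

/-- **Denef's form of the strong monodromy conjecture**, every prime, for
`x ^ A * (∑_j c_j x ^ m_j) ^ e` -/
theorem poincare_main (A : Fin n → ℕ) (m : Fin k → Fin n → ℕ) (c : Fin k → ℤ) (e : ℕ)
    (hm : AffInd m) (hc : ∀ j, c j ≠ 0) (hk : 2 ≤ k) (he : 0 < e)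
    (hA : ∀ i, A i ≠ 0 ∨ ∀ j, m j i ≠ 1) :
    (∃ P Q : Polynomial ℂ, P ≠ 0 ∧
      (P : PowerSeries ℂ) * poincare (zpoly A m c e) p = (Q : PowerSeries ℂ)) ∧
    ∀ T₀ : ℂ, IsPole (poincare (zpoly A m c e) p) T₀ →
      ∀ b : Polynomial ℂ, Pool.Agent.H628R4.TP.IsBFunction
        (MvPolynomial.map (algebraMap ℤ ℂ) (zpoly A m c e)) b →
      b.eval ((-Real.log ‖T₀‖ / Real.log p : ℝ) : ℂ) = 0 := by
  obtain ⟨E, ray, Q, hray, hQ⟩ := poincare_rational (p := p) A m c e hm hc (by omega) he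
  have hden := den_ne (p := p) A m e ray fun q => (hray q).1
  refine ⟨⟨den p A m e ray, Q, hden, hQ⟩, fun T₀ hT b hb => ?_⟩
  have h1 := hT Q _ hden hQ
  have hf : MvPolynomial.map (algebraMap ℤ ℂ) (zpoly A m c e) =
      (∏ i, MvPolynomial.X i ^ A i) *
        (∑ j, MvPolynomial.C ((c j : ℤ) : ℂ) * ∏ i, MvPolynomial.X i ^ m j i) ^ e := by
    unfold zpoly
    simp only [map_mul, map_prod, map_pow, map_sum, MvPolynomial.map_X, MvPolynomial.map_C]
    rfl
  rw [hf] at hb
  have hroot := root_of_RA A m e hk he hA b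
    (rac A m hm (fun j => ((c j : ℤ) : ℂ)) (fun j => by exact_mod_cast hc j) e he b hb)
  rcases den_root A m e he ray (fun q => (hray q).1) T₀ h1 with h2 | ⟨q, hq, h2⟩
  · rw [h2]
    have h3 := hroot.1 1 le_rfl he
    simpa using h3
  · rw [h2]
    have h3 := hroot.2 (ray q) (hray q) hq
    push_cast
    push_cast at h3
    exact h3

end Pool.Agent.W422.SM
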