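import Pool.Agent.W422.SM.U

/-!
# Joint distribution of the orders, for every prime
-/

set_option autoImplicit false
set_option linter.unusedSectionVars false

namespace Pool.Agent.W422.SM

open MeasureTheory Pool.Agent.W426.SM Pool.Agent.W424.SM.ZMU Pool.Agent.W22.SM.ZMA

variable {n k : ℕ} {p : ℕ} [hp : Fact p.Prime]

lemma dvd_iff_val {x : ℤ_[p]} (hx : x ≠ 0) (l : ℕ) : (p : ℤ_[p]) ^ l ∣ x ↔ l ≤ x.valuation := by
  rw [← PadicInt.mem_span_pow_iff_le_valuation x hx, Ideal.mem_span_singleton]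

lemma val_of_norm {x : ℤ_[p]} {u : ℕ} (h : ‖x‖ = (p : ℝ) ^ (-(u : ℤ))) :
    x ≠ 0 ∧ x.valuation = u := by
  have hp1 : (1 : ℝ) < p := by exact_mod_cast hp.out.one_lt
  have hp0 : (0 : ℝ) < p := by linarith
  have hx : x ≠ 0 := by
    rintro rfl
    rw [norm_zero] at h
    exact absurd h.symm (zpow_pos hp0 _).ne'
  refine ⟨hx, ?_⟩
  rw [PadicInt.norm_eq_zpow_neg_valuation hx] at h
  have h2 := zpow_right_injective₀ hp0 hp1.ne' h
  have h3 : (x.valuation : ℤ) = u := by simpa using h2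
  exact_mod_cast h3

/-- the order of the terms -/
noncomputable def dl (m : Fin k → Fin n → ℕ) (c : Fin k → ℤ_[p]) (u : Fin n → ℕ) (j : Fin k) : ℕ :=
  (c j).valuation + ∑ i, u i * m j i

/-- the minimal order of the terms -/
noncomputable def N0 (m : Fin k → Fin n → ℕ) (c : Fin k → ℤ_[p]) (u : Fin n → ℕ) : ℕ :=
  ⨅ j, dl m c u j

/-- the unit parts of the coefficients -/
noncomputable def cu (c : Fin k → ℤ_[p]) (hc : ∀ j, c j ≠ 0) (j : Fin k) : ℤ_[p] :=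
  (PadicInt.unitCoeff (hc j) : ℤ_[p])

lemma cu_norm (c : Fin k → ℤ_[p]) (hc : ∀ j, c j ≠ 0) (j : Fin k) : ‖cu c hc j‖ = 1 :=
  PadicInt.norm_units _

lemma cu_spec (c : Fin k → ℤ_[p]) (hc : ∀ j, c j ≠ 0) (j : Fin k) :
    c j = (p : ℤ_[p]) ^ (c j).valuation * cu c hc j := by
  rw [mul_comm]
  exact PadicInt.unitCoeff_spec (hc j)

lemma N0_le (m : Fin k → Fin n → ℕ) (c : Fin k → ℤ_[p]) (u : Fin n → ℕ) (j : Fin k) :
    N0 m c u ≤ dl m c u j := ciInf_le' _ j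

lemma N0_mem (hk : 0 < k) (m : Fin k → Fin n → ℕ) (c : Fin k → ℤ_[p]) (u : Fin n → ℕ) :
    ∃ j : Fin k, dl m c u j = N0 m c u := by
  have : Nonempty (Fin k) := ⟨⟨0, hk⟩⟩
  exact Nat.sInf_mem (Set.range_nonempty fun j : Fin k => dl m c u j)

/-- the coefficients after scaling -/
noncomputable def bb (m : Fin k → Fin n → ℕ) (c : Fin k → ℤ_[p]) (hc : ∀ j, c j ≠ 0)
    (u : Fin n → ℕ) (j : Fin k) : ℤ_[p] := (p : ℤ_[p]) ^ (dl m c u j - N0 m c u) * cu c hc j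

/-- the coefficients of a pattern -/
noncomputable def bt (c : Fin k → ℤ_[p]) (hc : ∀ j, c j ≠ 0) (ρ : Fin k → ℕ) (j : Fin k) :
    ℤ_[p] := (p : ℤ_[p]) ^ ρ j * cu c hc j

/-- the pattern -/
noncomputable def pat (m : Fin k → Fin n → ℕ) (c : Fin k → ℤ_[p]) (B : ℕ) (u : Fin n → ℕ)
    (j : Fin k) : ℕ := min (dl m c u j - N0 m c u) B

lemma GG_phi (m : Fin k → Fin n → ℕ) (c : Fin k → ℤ_[p]) (hc : ∀ j, c j ≠ 0) (u : Fin n → ℕ)
    (y : Fin n → ℤ_[p]) :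
    GG m c (phi p u y) = (p : ℤ_[p]) ^ N0 m c u * GG m (bb m c hc u) y := by
  unfold GG XX
  rw [Finset.mul_sum]
  refine Finset.sum_congr rfl fun j _ => ?_
  have h1 : ∀ i, (phi p u y i) ^ m j i = (p : ℤ_[p]) ^ (u i * m j i) * (y i) ^ m j i := by
    intro i
    rw [phi_apply, mul_pow, ← pow_mul]
  simp only [h1, Finset.prod_mul_distrib, Finset.prod_pow_eq_pow_sum]
  have h2 : c j * (p : ℤ_[p]) ^ (∑ i, u i * m j i) =
      (p : ℤ_[p]) ^ N0 m c u * bb m c hc u j := by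
    unfold bb
    rw [← mul_assoc, ← pow_add, Nat.add_sub_cancel' (N0_le m c u j)]
    conv_lhs => rw [cu_spec c hc j]
    unfold dl
    rw [pow_add]
    ring
  rw [← mul_assoc, h2]
  ring

/-- given valuations of the coordinates, and `p ^ (N0 + l)` divides -/
def EE (m : Fin k → Fin n → ℕ) (c : Fin k → ℤ_[p]) (u : Fin n → ℕ) (l : ℕ) :
    Set (Fin n → ℤ_[p]) :=
  {x | (∀ i, ‖x i‖ = (p : ℝ) ^ (-(u i : ℤ))) ∧ (p : ℤ_[p]) ^ (N0 m c u + l) ∣ GG m c x}

lemma EE_eq (m : Fin k → Fin n → ℕ) (c : Fin k → ℤ_[p]) (hc : ∀ j, c j ≠ 0) (u : Fin n → ℕ)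
    (l : ℕ) : EE m c u l = phi p u '' VV m (bb m c hc u) l := by
  have hp1 : (0 : ℝ) < p := by exact_mod_cast hp.out.pos
  have hn : ∀ y : Fin n → ℤ_[p], ((p : ℤ_[p]) ^ (N0 m c u + l) ∣ GG m c (phi p u y) ↔
      (p : ℤ_[p]) ^ l ∣ GG m (bb m c hc u) y) := by
    intro y
    rw [GG_phi m c hc, pow_add]
    exact mul_dvd_mul_iff_left (pow_ne_zero _ p_ne)
  have hn2 : ∀ (y : Fin n → ℤ_[p]) (i : Fin n),
      (‖phi p u y i‖ = (p : ℝ) ^ (-(u i : ℤ)) ↔ ‖y i‖ = 1) := by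
    intro y i
    rw [phi_norm]
    exact mul_eq_left₀ (zpow_pos hp1 _).ne'
  ext x
  constructor
  · rintro ⟨h1, h2⟩
    obtain ⟨y, rfl⟩ := mem_range_of_norm u x h1
    exact ⟨y, ⟨fun i => (hn2 y i).1 (h1 i), (hn y).1 h2⟩, rfl⟩
  · rintro ⟨y, ⟨h1, h2⟩, rfl⟩
    exact ⟨fun i => (hn2 y i).2 (h1 i), (hn y).2 h2⟩

section meas

variable [MeasurableSpace (Fin n → ℤ_[p])] [BorelSpace (Fin n → ℤ_[p])]

lemma meas_EE (m : Fin k → Fin n → ℕ) (c : Fin k → ℤ_[p]) (u : Fin n → ℕ) (l : ℕ) :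
    MeasurableSet (EE m c u l) := by
  refine MeasurableSet.inter ?_ (meas_dvd m c _)
  have : {x : Fin n → ℤ_[p] | ∀ i, ‖x i‖ = (p : ℝ) ^ (-(u i : ℤ))} =
      ⋂ i, {x | ‖x i‖ = (p : ℝ) ^ (-(u i : ℤ))} := by
    ext x
    simp
  show MeasurableSet {x : Fin n → ℤ_[p] | ∀ i, ‖x i‖ = (p : ℝ) ^ (-(u i : ℤ))}
  rw [this]
  exact MeasurableSet.iInter fun i =>
    (isClosed_eq (continuous_apply i).norm continuous_const).measurableSet

/-- the distribution of the orders -/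
theorem measure_EE (m : Fin k → Fin n → ℕ) (hm : AffInd m) (hk : 0 < k) (c : Fin k → ℤ_[p])
    (hc : ∀ j, c j ≠ 0) :
    ∃ (B : ℕ) (C : (Fin k → ℕ) → ℕ → ℝ), 1 ≤ B ∧
      (∀ ρ, (∃ j, ρ j = 0) → ∀ l, C ρ (B + l) = ((p : ℝ)⁻¹) ^ l * C ρ B) ∧
      ∀ u l, ((Measure.addHaar : Measure (Fin n → ℤ_[p])) (EE m c u l)).toReal =
        ((Measure.addHaar : Measure (Fin n → ℤ_[p])) Set.univ).toReal *
          (((p : ℝ)⁻¹) ^ (∑ i, u i) * C (pat m c B u) l) := by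
  classical
  obtain ⟨N, hN, B₀, BB, hB⟩ := nondeg m hm
  have hN0 : (N : ℤ_[p]) ≠ 0 := by exact_mod_cast hN
  set v := ((N : ℤ_[p])).valuation with hv
  have hspec : (N : ℤ_[p]) = (p : ℤ_[p]) ^ v * (PadicInt.unitCoeff hN0 : ℤ_[p]) := by
    rw [mul_comm]
    exact PadicInt.unitCoeff_spec hN0
  have hV : 0 < ((Measure.addHaar : Measure (Fin n → ℤ_[p])) Set.univ).toReal := by
    refine ENNReal.toReal_pos ?_ (measure_ne_top _ _)
    exact (isOpen_univ.measure_pos _ Set.univ_nonempty).ne'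
  refine ⟨2 * v + 1, fun ρ l => ((Measure.addHaar : Measure (Fin n → ℤ_[p]))
    (VV m (bt c hc ρ) l)).toReal / ((Measure.addHaar : Measure (Fin n → ℤ_[p]))
      Set.univ).toReal, by omega, ?_, ?_⟩
  · rintro ρ ⟨j, hj⟩ l
    have h1 := VV_real m (bt c hc ρ) hB v _ (PadicInt.norm_units _) hspec j (by
      unfold bt
      rw [hj, pow_zero, one_mul, cu_norm]) l
    simp only [h1]
    ring
  · intro u l
    obtain ⟨j, hj⟩ := N0_mem hk m c u
    have hb1 : ‖bb m c hc u j‖ = 1 := by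
      unfold bb
      rw [hj, Nat.sub_self, pow_zero, one_mul, cu_norm]
    have hb2 : ‖bt c hc (pat m c (2 * v + 1) u) j‖ = 1 := by
      unfold bt pat
      rw [hj, Nat.sub_self, Nat.zero_min, pow_zero, one_mul, cu_norm]
    have hcongr : ∀ l ≤ 2 * v + 1, VV m (bb m c hc u) l =
        VV m (bt c hc (pat m c (2 * v + 1) u)) l := by
      intro l hl
      apply VV_congr
      intro j
      unfold bb bt pat
      rcases le_total (dl m c u j - N0 m c u) (2 * v + 1) with h | h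
      · rw [min_eq_left h, sub_self]
        exact dvd_zero _
      · rw [min_eq_right h, ← sub_mul]
        refine Dvd.dvd.mul_right (dvd_sub ?_ ?_) _
        · exact pow_dvd_pow _ (hl.trans h)
        · exact pow_dvd_pow _ hl
    have hall : ((Measure.addHaar : Measure (Fin n → ℤ_[p])) (VV m (bb m c hc u) l)).toReal =
        ((Measure.addHaar : Measure (Fin n → ℤ_[p]))
          (VV m (bt c hc (pat m c (2 * v + 1) u)) l)).toReal := by
      rcases le_total l (2 * v + 1) with h | h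
      · rw [hcongr l h]
      · obtain ⟨l', rfl⟩ := Nat.exists_eq_add_of_le h
        rw [VV_real m (bb m c hc u) hB v _ (PadicInt.norm_units _) hspec j hb1 l',
          VV_real m (bt c hc _) hB v _ (PadicInt.norm_units _) hspec j hb2 l',
          hcongr _ le_rfl]
    rw [EE_eq m c hc, measure_image, hall]
    have h3 : (p : ℝ) ^ (-((∑ i, u i : ℕ) : ℤ)) = ((p : ℝ)⁻¹) ^ (∑ i, u i) := by
      rw [zpow_neg, zpow_natCast, inv_pow]
    rw [h3]
    field_simp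

end meas

end Pool.Agent.W422.SM
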