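import Pool.Agent.W422.SM.Z

/-!
# The Poincare series
-/

set_option autoImplicit false
set_option linter.unusedSectionVars false

namespace Pool.Agent.W422.SM

open MeasureTheory Pool.Agent.W426.SM Pool.Agent.W424.SM.ZMU Pool.Agent.W22.SM.ZMA

/-- the number of solutions of `f ≡ 0 mod p ^ M` in `(ℤ / p ^ M) ^ n` -/
noncomputable def solCount {n : ℕ} (f : MvPolynomial (Fin n) ℤ) (p M : ℕ) : ℕ :=
  Nat.card {x : Fin n → ZMod (p ^ M) // MvPolynomial.aeval x f = 0}

/-- Igusa's Poincare series `∑_M a_M (p ^ (-n) T) ^ M`, where `a_M` is the number of solutions of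
`f ≡ 0 mod p ^ M` -/
noncomputable def poincare {n : ℕ} (f : MvPolynomial (Fin n) ℤ) (p : ℕ) : PowerSeries ℂ :=
  PowerSeries.mk fun M => (solCount f p M : ℂ) / ((p : ℂ) ^ n) ^ M

variable {n k : ℕ} {p : ℕ} [hp : Fact p.Prime]

section meas

variable [MeasurableSpace (Fin n → ℤ_[p])] [BorelSpace (Fin n → ℤ_[p])]

lemma toZModPow_aeval (f : MvPolynomial (Fin n) ℤ) (M : ℕ) (x : Fin n → ℤ_[p]) :
    PadicInt.toZModPow M (MvPolynomial.aeval x f) =
      MvPolynomial.aeval (fun i => PadicInt.toZModPow M (x i)) f := by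
  rw [MvPolynomial.aeval_def, MvPolynomial.aeval_def,
    MvPolynomial.hom_eval₂ f (algebraMap ℤ ℤ_[p]) (PadicInt.toZModPow M) x]
  congr 1
  exact RingHom.ext_int _ _

/-- counting solutions by measures -/
theorem measure_sol (f : MvPolynomial (Fin n) ℤ) (M : ℕ) :
    ((Measure.addHaar : Measure (Fin n → ℤ_[p]))
      {x | (p : ℤ_[p]) ^ M ∣ MvPolynomial.aeval x f}).toReal =
    ((Measure.addHaar : Measure (Fin n → ℤ_[p])) Set.univ).toReal *
      ((solCount f p M : ℝ) / ((p : ℝ) ^ n) ^ M) := by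
  classical
  have : NeZero (p ^ M) := ⟨pow_ne_zero _ hp.out.ne_zero⟩
  set u : Fin n → ℕ := fun _ => M with hu
  set κ : ENNReal := (Measure.addHaar : Measure (Fin n → ℤ_[p])) ((red p u).ker : Set _) with hκ
  have hmeas : MeasurableSet ((red p u).ker : Set (Fin n → ℤ_[p])) := by
    rw [red_ker, AddMonoidHom.coe_range]
    exact (phi_emb u).isClosed_range.measurableSet
  have hfib : ∀ z : Fin n → ZMod (p ^ M), (Measure.addHaar : Measure (Fin n → ℤ_[p]))
      ((red p u) ⁻¹' {z}) = κ ∧ MeasurableSet ((red p u) ⁻¹' {z}) := by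
    intro z
    obtain ⟨x₀, hx₀⟩ := red_surj (p := p) u z
    have h1 : (red p u) ⁻¹' {z} = (fun y => -x₀ + y) ⁻¹' ((red p u).ker : Set _) := by
      ext y
      simp only [Set.mem_preimage, Set.mem_singleton_iff, SetLike.mem_coe,
        AddMonoidHom.mem_ker, map_add, map_neg]
      rw [hx₀, neg_add_eq_zero]
      exact eq_comm
    rw [h1]
    exact ⟨measure_preimage_add _ _ _, hmeas.preimage (measurable_const_add _)⟩
  have hset : {x : Fin n → ℤ_[p] | (p : ℤ_[p]) ^ M ∣ MvPolynomial.aeval x f} =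
      ⋃ z ∈ (Finset.univ.filter fun z : Fin n → ZMod (p ^ M) => MvPolynomial.aeval z f = 0),
        (red p u) ⁻¹' {z} := by
    ext x
    simp only [Set.mem_ofPred_eq, Finset.mem_filter, Finset.mem_univ, true_and, Set.mem_iUnion,
      Set.mem_preimage, Set.mem_singleton_iff, exists_prop]
    have h2 : (p : ℤ_[p]) ^ M ∣ MvPolynomial.aeval x f ↔
        MvPolynomial.aeval (fun i => PadicInt.toZModPow M (x i)) f = 0 := by
      rw [← toZModPow_aeval, ← RingHom.mem_ker, PadicInt.ker_toZModPow, Ideal.mem_span_singleton]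
    rw [h2]
    constructor
    · intro h
      exact ⟨_, h, rfl⟩
    · rintro ⟨z, hz, rfl⟩
      exact hz
  have hcard : (Finset.univ.filter fun z : Fin n → ZMod (p ^ M) =>
      MvPolynomial.aeval z f = 0).card = solCount f p M := by
    unfold solCount
    rw [Nat.card_eq_fintype_card, Fintype.card_subtype]
  have h3 : (Measure.addHaar : Measure (Fin n → ℤ_[p]))
      {x | (p : ℤ_[p]) ^ M ∣ MvPolynomial.aeval x f} = solCount f p M * κ := by
    rw [hset, measure_biUnion_finset]
    · rw [Finset.sum_congr rfl fun z _ => (hfib z).1, Finset.sum_const, hcard, nsmul_eq_mul]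
    · intro z _ z' _ hne
      rw [Function.onFun, Set.disjoint_left]
      intro y h h'
      exact hne (h.symm.trans h')
    · intro z _
      exact (hfib z).2
  have hindex : (red p u).ker.index = p ^ (n * M) := by
    rw [red_ker, index_range]
    simp [hu]
  have : (red p u).ker.FiniteIndex := by
    refine ⟨?_⟩
    rw [hindex]
    exact pow_ne_zero _ hp.out.ne_zero
  have h4 := AddSubgroup.index_mul_measure (red p u).ker hmeas
    (Measure.addHaar : Measure (Fin n → ℤ_[p]))
  rw [hindex] at h4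
  have h5 := congrArg ENNReal.toReal h4
  rw [ENNReal.toReal_mul] at h5
  have hp0 : (p : ℝ) ≠ 0 := by exact_mod_cast hp.out.ne_zero
  rw [h3, ENNReal.toReal_mul, ENNReal.toReal_natCast, ← h5]
  have h6 : (((p ^ (n * M) : ℕ) : ENNReal)).toReal = ((p : ℝ) ^ n) ^ M := by
    rw [ENNReal.toReal_natCast]
    push_cast
    rw [pow_mul]
  rw [h6, ← hκ]
  field_simp

end meas

/-! ### power series -/

/-- uniqueness of the coefficients -/
theorem coeff_unique (d : ℕ → ℂ) (hd : ∀ T : ℂ, ‖T‖ < 1 → HasSum (fun M => d M * T ^ M) 0) :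
    ∀ M, d M = 0 := by
  intro M
  induction M using Nat.strong_induction_on with
  | _ M ih =>
    by_contra hne
    -- the tail at `1/2`
    have hs : Summable fun i : ℕ => ‖d (i + (M + 1))‖ * (1 / 2 : ℝ) ^ i := by
      have h1 := (hd (1 / 2) (by norm_num)).summable.norm
      have h2 := (summable_nat_add_iff (M + 1)).2 h1
      have h3 := h2.mul_left ((2 : ℝ) ^ (M + 1))
      refine h3.congr fun i => ?_
      rw [norm_mul, norm_pow]
      have h4 : ‖(1 / 2 : ℂ)‖ = 1 / 2 := by norm_num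
      rw [h4, pow_add (1 / 2 : ℝ) i (M + 1)]
      have h5 : (2 : ℝ) ^ (M + 1) * (1 / 2 : ℝ) ^ (M + 1) = 1 := by
        rw [← mul_pow]; norm_num
      calc (2 : ℝ) ^ (M + 1) * (‖d (i + (M + 1))‖ * ((1 / 2 : ℝ) ^ i * (1 / 2) ^ (M + 1)))
          = (2 : ℝ) ^ (M + 1) * (1 / 2 : ℝ) ^ (M + 1) * (‖d (i + (M + 1))‖ * (1 / 2 : ℝ) ^ i) := by
            ring
        _ = _ := by rw [h5, one_mul]
    set K : ℝ := ∑' i : ℕ, ‖d (i + (M + 1))‖ * (1 / 2 : ℝ) ^ i with hK
    have hK0 : 0 ≤ K := tsum_nonneg fun i => by positivity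
    have key : ∀ t : ℝ, 0 < t → t ≤ 1 / 2 → ‖d M‖ ≤ t * K := by
      intro t ht ht2
      have hnorm : ‖(t : ℂ)‖ = t := by rw [Complex.norm_real, Real.norm_of_nonneg ht.le]
      have h1 := hd (t : ℂ) (by rw [hnorm]; linarith)
      have h2 := h1.summable.sum_add_tsum_nat_add (M + 1)
      rw [h1.tsum_eq, Finset.sum_range_succ, Finset.sum_eq_zero (fun i hi => by
        rw [ih i (Finset.mem_range.1 hi), zero_mul]), zero_add] at h2
      have h3 : d M * (t : ℂ) ^ M = -∑' i : ℕ, d (i + (M + 1)) * (t : ℂ) ^ (i + (M + 1)) :=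
        eq_neg_of_add_eq_zero_left h2
      have hbd : ∀ i : ℕ, ‖d (i + (M + 1)) * (t : ℂ) ^ (i + (M + 1))‖ ≤
          (t ^ (M + 1)) * (‖d (i + (M + 1))‖ * (1 / 2 : ℝ) ^ i) := by
        intro i
        rw [norm_mul, norm_pow, hnorm, pow_add]
        have h4 : t ^ i ≤ (1 / 2 : ℝ) ^ i := pow_le_pow_left₀ ht.le ht2 i
        calc ‖d (i + (M + 1))‖ * (t ^ i * t ^ (M + 1))
            ≤ ‖d (i + (M + 1))‖ * ((1 / 2 : ℝ) ^ i * t ^ (M + 1)) := by gcongr
          _ = _ := by ring
      have h5 : ‖∑' i : ℕ, d (i + (M + 1)) * (t : ℂ) ^ (i + (M + 1))‖ ≤ t ^ (M + 1) * K := by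
        rw [hK, ← tsum_mul_left]
        exact tsum_of_norm_bounded (hs.mul_left _).hasSum hbd
      have h6 : ‖d M‖ * t ^ M ≤ t ^ (M + 1) * K := by
        have h7 : ‖d M * (t : ℂ) ^ M‖ ≤ t ^ (M + 1) * K := by
          rw [h3, norm_neg]; exact h5
        rwa [norm_mul, norm_pow, hnorm] at h7
      have htM : 0 < t ^ M := pow_pos ht M
      have h8 : ‖d M‖ * t ^ M ≤ (t * K) * t ^ M := by
        calc ‖d M‖ * t ^ M ≤ t ^ (M + 1) * K := h6
          _ = _ := by ring
      exact le_of_mul_le_mul_right h8 htM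
    have hpos : 0 < ‖d M‖ := norm_pos_iff.2 hne
    have h9 := key (min (1 / 2) (‖d M‖ / (2 * (K + 1)))) (by positivity) (min_le_left _ _)
    have h10 : min (1 / 2) (‖d M‖ / (2 * (K + 1))) * K ≤ (‖d M‖ / (2 * (K + 1))) * (K + 1) := by
      refine mul_le_mul (min_le_right _ _) (by linarith) hK0 (by positivity)
    have h11 : (‖d M‖ / (2 * (K + 1))) * (K + 1) = ‖d M‖ / 2 := by
      have : K + 1 ≠ 0 := by positivity
      field_simp
    linarith

/-- the product of a polynomial and a power series, evaluated -/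
theorem hasSum_mul_eval (D : Polynomial ℂ) (z : ℕ → ℂ) (T : ℂ)
    (hz : Summable fun M => ‖z M * T ^ M‖) :
    HasSum (fun M => PowerSeries.coeff M ((D : PowerSeries ℂ) * PowerSeries.mk z) * T ^ M)
      (D.eval T * ∑' M, z M * T ^ M) := by
  have hDs : Summable fun M => ‖D.coeff M * T ^ M‖ := by
    refine summable_of_ne_finset_zero (s := Finset.range (D.natDegree + 1)) fun M hM => ?_
    rw [Finset.mem_range, not_lt] at hM
    rw [Polynomial.coeff_eq_zero_of_natDegree_lt (by omega), zero_mul, norm_zero]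
  have hDe : D.eval T = ∑' M, D.coeff M * T ^ M := by
    rw [Polynomial.eval_eq_sum_range, tsum_eq_sum (s := Finset.range (D.natDegree + 1))]
    intro M hM
    rw [Finset.mem_range, not_lt] at hM
    rw [Polynomial.coeff_eq_zero_of_natDegree_lt (by omega), zero_mul]
  rw [hDe, tsum_mul_tsum_eq_tsum_sum_antidiagonal_of_summable_norm hDs hz]
  have hs := summable_norm_sum_mul_antidiagonal_of_summable_norm hDs hz
  have he : (fun M => PowerSeries.coeff M ((D : PowerSeries ℂ) * PowerSeries.mk z) * T ^ M) =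
      fun M => ∑ kl ∈ Finset.HasAntidiagonal.antidiagonal M,
        (D.coeff kl.1 * T ^ kl.1) * (z kl.2 * T ^ kl.2) := by
    funext M
    rw [PowerSeries.coeff_mul, Finset.sum_mul]
    refine Finset.sum_congr rfl fun kl hkl => ?_
    rw [Finset.HasAntidiagonal.mem_antidiagonal] at hkl
    rw [Polynomial.coeff_coe, PowerSeries.coeff_mk, ← hkl, pow_add]
    ring
  rw [he]
  exact hs.of_norm.hasSum

/-- an identity on the unit disc gives an identity of power series -/
theorem ps_of_eval (D R : Polynomial ℂ) (z : ℕ → ℂ)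
    (hz : ∀ T : ℂ, ‖T‖ < 1 → Summable fun M => ‖z M * T ^ M‖)
    (h : ∀ T : ℂ, ‖T‖ < 1 → D.eval T * ∑' M, z M * T ^ M = R.eval T) :
    (D : PowerSeries ℂ) * PowerSeries.mk z = (R : PowerSeries ℂ) := by
  have h1 := coeff_unique (fun M => PowerSeries.coeff M ((D : PowerSeries ℂ) *
    PowerSeries.mk z) - R.coeff M) (fun T hT => by
      have h2 := hasSum_mul_eval D z T (hz T hT)
      rw [h T hT] at h2
      have h3 : HasSum (fun M => R.coeff M * T ^ M) (R.eval T) := by
        rw [Polynomial.eval_eq_sum_range]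
        refine hasSum_sum_of_ne_finset_zero fun M hM => ?_
        rw [Finset.mem_range, not_lt] at hM
        rw [Polynomial.coeff_eq_zero_of_natDegree_lt (by omega), zero_mul]
      have h4 := h2.sub h3
      rw [sub_self] at h4
      simpa [sub_mul] using h4)
  ext M
  rw [Polynomial.coeff_coe]
  exact sub_eq_zero.1 (h1 M)

end Pool.Agent.W422.SM
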