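import Pool.Agent.W422.SM.M

/-!
# The measure of the level sets, for every prime
-/

set_option autoImplicit false
set_option linter.unusedSectionVars false

namespace Pool.Agent.W422.SM

open MeasureTheory Pool.Agent.W426.SM Pool.Agent.W424.SM.ZMU Pool.Agent.W22.SM.ZMA

variable {n k : ℕ} {p : ℕ} [hp : Fact p.Prime]

/-- the function `x ^ A * g ^ e` -/
noncomputable def FF (A : Fin n → ℕ) (m : Fin k → Fin n → ℕ) (c : Fin k → ℤ_[p]) (e : ℕ)
    (x : Fin n → ℤ_[p]) : ℤ_[p] := (∏ i, x i ^ A i) * GG m c x ^ e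

/-- the set where `p ^ M` divides -/
def DM (A : Fin n → ℕ) (m : Fin k → Fin n → ℕ) (c : Fin k → ℤ_[p]) (e M : ℕ) :
    Set (Fin n → ℤ_[p]) := {x | (p : ℤ_[p]) ^ M ∣ FF A m c e x}

/-- the order on the stratum `(u, l)` -/
noncomputable def ph (A : Fin n → ℕ) (m : Fin k → Fin n → ℕ) (c : Fin k → ℤ_[p]) (e : ℕ)
    (w : (Fin n → ℕ) × ℕ) : ℕ := ∑ i, w.1 i * A i + e * (N0 m c w.1 + w.2)

/-- the strata -/
def SS (m : Fin k → Fin n → ℕ) (c : Fin k → ℤ_[p]) (w : (Fin n → ℕ) × ℕ) :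
    Set (Fin n → ℤ_[p]) := EE m c w.1 w.2 \ EE m c w.1 (w.2 + 1)

lemma norm_iff {x : ℤ_[p]} {u : ℕ} : ‖x‖ = (p : ℝ) ^ (-(u : ℤ)) ↔ x ≠ 0 ∧ x.valuation = u := by
  constructor
  · exact val_of_norm
  · rintro ⟨hx, rfl⟩
    exact PadicInt.norm_eq_zpow_neg_valuation hx

lemma val_prod (A : Fin n → ℕ) (x : Fin n → ℤ_[p]) (hx : ∀ i, x i ≠ 0) (s : Finset (Fin n)) :
    (∏ i ∈ s, x i ^ A i) ≠ 0 ∧
      (∏ i ∈ s, x i ^ A i).valuation = ∑ i ∈ s, (x i).valuation * A i := by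
  classical
  induction s using Finset.induction_on with
  | empty => simp
  | insert i s hi ih =>
    have h1 : x i ^ A i ≠ 0 := pow_ne_zero _ (hx i)
    rw [Finset.prod_insert hi, Finset.sum_insert hi]
    refine ⟨mul_ne_zero h1 ih.1, ?_⟩
    rw [PadicInt.valuation_mul h1 ih.1, PadicInt.valuation_pow, ih.2, mul_comm (A i)]

lemma GG_dvd (m : Fin k → Fin n → ℕ) (c : Fin k → ℤ_[p]) (hc : ∀ j, c j ≠ 0)
    (x : Fin n → ℤ_[p])
    (hx : ∀ i, x i ≠ 0) : (p : ℤ_[p]) ^ N0 m c (fun i => (x i).valuation) ∣ GG m c x := by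
  unfold GG
  refine Finset.dvd_sum fun j _ => ?_
  unfold XX
  obtain ⟨h1, h2⟩ := val_prod (m j) x hx Finset.univ
  rw [dvd_iff_val (mul_ne_zero (hc j) h1), PadicInt.valuation_mul (hc j) h1, h2]
  exact N0_le m c _ j

/-- the stratum of a point -/
lemma mem_SS_iff (m : Fin k → Fin n → ℕ) (c : Fin k → ℤ_[p]) (w : (Fin n → ℕ) × ℕ)
    (x : Fin n → ℤ_[p]) : x ∈ SS m c w ↔ (∀ i, x i ≠ 0 ∧ (x i).valuation = w.1 i) ∧
      GG m c x ≠ 0 ∧ (GG m c x).valuation = N0 m c w.1 + w.2 := by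
  unfold SS EE
  simp only [Set.mem_sdiff, Set.mem_ofPred_eq, norm_iff]
  constructor
  · rintro ⟨⟨h1, h2⟩, h3⟩
    have h4 : ¬ (p : ℤ_[p]) ^ (N0 m c w.1 + (w.2 + 1)) ∣ GG m c x := fun h => h3 ⟨h1, h⟩
    have h5 : GG m c x ≠ 0 := by
      intro h
      rw [h] at h4
      exact h4 (dvd_zero _)
    rw [dvd_iff_val h5] at h2 h4
    exact ⟨h1, h5, by omega⟩
  · rintro ⟨h1, h5, h6⟩
    refine ⟨⟨h1, ?_⟩, fun h => ?_⟩
    · rw [dvd_iff_val h5]; omega
    · have h7 := h.2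
      rw [dvd_iff_val h5] at h7
      omega

lemma SS_val (A : Fin n → ℕ) (m : Fin k → Fin n → ℕ) (c : Fin k → ℤ_[p]) (e : ℕ)
    (w : (Fin n → ℕ) × ℕ) (x : Fin n → ℤ_[p]) (hx : x ∈ SS m c w) :
    FF A m c e x ≠ 0 ∧ (FF A m c e x).valuation = ph A m c e w := by
  rw [mem_SS_iff] at hx
  obtain ⟨h1, h2, h3⟩ := hx
  obtain ⟨h4, h5⟩ := val_prod A x (fun i => (h1 i).1) Finset.univ
  unfold FF ph
  refine ⟨mul_ne_zero h4 (pow_ne_zero _ h2), ?_⟩
  rw [PadicInt.valuation_mul h4 (pow_ne_zero _ h2), h5, PadicInt.valuation_pow, h3]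
  congr 1
  exact Finset.sum_congr rfl fun i _ => by rw [(h1 i).2]

lemma SS_disj (m : Fin k → Fin n → ℕ) (c : Fin k → ℤ_[p]) : Pairwise
    (Function.onFun Disjoint (SS m c)) := by
  intro w w' hne
  rw [Function.onFun, Set.disjoint_left]
  intro x h1 h2
  rw [mem_SS_iff] at h1 h2
  apply hne
  have h3 : w.1 = w'.1 := funext fun i => (h1.1 i).2.symm.trans (h2.1 i).2
  refine Prod.ext h3 ?_
  have h4 := h1.2.2
  have h5 := h2.2.2
  rw [h3] at h4
  omega

/-- the level sets -/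
lemma level_eq (A : Fin n → ℕ) (m : Fin k → Fin n → ℕ) (c : Fin k → ℤ_[p])
    (hc : ∀ j, c j ≠ 0) (e : ℕ) (he : 0 < e) (M : ℕ) :
    (DM A m c e M \ DM A m c e (M + 1)) ∩ {x | ∀ i, x i ≠ 0} =
      ⋃ w : {w : (Fin n → ℕ) × ℕ // ph A m c e w = M}, SS m c w.1 := by
  ext x
  simp only [Set.mem_inter_iff, Set.mem_sdiff, Set.mem_ofPred_eq, Set.mem_iUnion, DM]
  constructor
  · rintro ⟨⟨h1, h2⟩, h3⟩
    have hF : FF A m c e x ≠ 0 := by
      intro h
      rw [h] at h2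
      exact h2 (dvd_zero _)
    have hG : GG m c x ≠ 0 := by
      intro h
      apply hF
      unfold FF
      rw [h, zero_pow he.ne', mul_zero]
    have h4 := GG_dvd m c hc x h3
    rw [dvd_iff_val hG] at h4
    have hS : x ∈ SS m c (fun i => (x i).valuation,
        (GG m c x).valuation - N0 m c (fun i => (x i).valuation)) := by
      rw [mem_SS_iff]
      refine ⟨fun i => ⟨h3 i, rfl⟩, hG, ?_⟩
      show (GG m c x).valuation = N0 m c (fun i => (x i).valuation) + _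
      omega
    have h5 := (SS_val A m c e _ x hS).2
    rw [dvd_iff_val hF] at h1 h2
    exact ⟨⟨_, by rw [← h5]; omega⟩, hS⟩
  · rintro ⟨⟨w, hw⟩, hS⟩
    obtain ⟨hF, hv⟩ := SS_val A m c e w x hS
    rw [dvd_iff_val hF, dvd_iff_val hF, hv, hw]
    exact ⟨⟨le_rfl, by omega⟩, fun i => (((mem_SS_iff m c w x).1 hS).1 i).1⟩

section meas

variable [MeasurableSpace (Fin n → ℤ_[p])] [BorelSpace (Fin n → ℤ_[p])]

lemma meas_SS (m : Fin k → Fin n → ℕ) (c : Fin k → ℤ_[p]) (w : (Fin n → ℕ) × ℕ) :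
    MeasurableSet (SS m c w) := (meas_EE m c _ _).diff (meas_EE m c _ _)

lemma cont_FF (A : Fin n → ℕ) (m : Fin k → Fin n → ℕ) (c : Fin k → ℤ_[p]) (e : ℕ) :
    Continuous (FF A m c e) := by
  unfold FF
  exact (continuous_finsetProd _ fun i _ => (continuous_apply i).pow _).mul
    ((cont_GG m c).pow _)

lemma meas_DM (A : Fin n → ℕ) (m : Fin k → Fin n → ℕ) (c : Fin k → ℤ_[p]) (e M : ℕ) :
    MeasurableSet (DM A m c e M) := by
  have : DM A m c e M = {x | ‖FF A m c e x‖ ≤ (p : ℝ) ^ (-(M : ℤ))} := by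
    ext y
    exact dvd_iff _ _
  rw [this]
  exact (isClosed_le (cont_FF A m c e).norm continuous_const).measurableSet

lemma null_coord (i : Fin n) :
    (Measure.addHaar : Measure (Fin n → ℤ_[p])) {x | x i = 0} = 0 := by
  classical
  have hp1 : (1 : ℝ) < p := by exact_mod_cast hp.out.one_lt
  have hp0 : (0 : ℝ) < p := by linarith
  have h1 : ∀ M : ℕ, ((Measure.addHaar : Measure (Fin n → ℤ_[p])) {x | x i = 0}).toReal ≤
      ((p : ℝ)⁻¹) ^ M * ((Measure.addHaar : Measure (Fin n → ℤ_[p])) Set.univ).toReal := by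
    intro M
    have h2 := measure_image (p := p) (Pi.single i M : Fin n → ℕ) Set.univ
    have h3 : (∑ i', (Pi.single i M : Fin n → ℕ) i') = M := by
      rw [Finset.sum_pi_single']; simp
    rw [h3, zpow_neg, zpow_natCast, ← inv_pow] at h2
    rw [← h2]
    refine ENNReal.toReal_mono (measure_ne_top _ _) (measure_mono ?_)
    intro x hx
    refine ⟨fun i' => if i' = i then 0 else x i', Set.mem_univ _, ?_⟩
    funext i'
    rw [phi_apply]
    by_cases h : i' = i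
    · subst h
      rw [if_pos rfl, mul_zero]
      exact hx.symm
    · rw [if_neg h, Pi.single_eq_of_ne h, pow_zero, one_mul]
  have h4 : Filter.Tendsto (fun M : ℕ => ((p : ℝ)⁻¹) ^ M *
      ((Measure.addHaar : Measure (Fin n → ℤ_[p])) Set.univ).toReal) Filter.atTop (nhds 0) := by
    have h5 := tendsto_pow_atTop_nhds_zero_of_lt_one (inv_nonneg.2 hp0.le)
      (inv_lt_one_of_one_lt₀ hp1)
    have h6 := h5.mul_const ((Measure.addHaar : Measure (Fin n → ℤ_[p])) Set.univ).toReal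
    rwa [zero_mul] at h6
  have h7 : ((Measure.addHaar : Measure (Fin n → ℤ_[p])) {x | x i = 0}).toReal ≤ 0 :=
    ge_of_tendsto' h4 h1
  have h8 : ((Measure.addHaar : Measure (Fin n → ℤ_[p])) {x | x i = 0}).toReal = 0 :=
    le_antisymm h7 ENNReal.toReal_nonneg
  rcases (ENNReal.toReal_eq_zero_iff _).1 h8 with h | h
  · exact h
  · exact absurd h (measure_ne_top _ _)

lemma null_coords :
    (Measure.addHaar : Measure (Fin n → ℤ_[p])) {x | ¬ ∀ i, x i ≠ 0} = 0 := by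
  have h1 : {x : Fin n → ℤ_[p] | ¬ ∀ i, x i ≠ 0} ⊆ ⋃ i, {x | x i = 0} := by
    intro x hx
    simp only [Set.mem_ofPred_eq, not_forall, not_not] at hx
    obtain ⟨i, hi⟩ := hx
    exact Set.mem_iUnion.2 ⟨i, hi⟩
  refine measure_mono_null h1 ?_
  rw [measure_iUnion_null_iff]
  exact fun i => null_coord i

/-- the measure of a level set -/
lemma measure_level (A : Fin n → ℕ) (m : Fin k → Fin n → ℕ) (c : Fin k → ℤ_[p])
    (hc : ∀ j, c j ≠ 0) (e : ℕ) (he : 0 < e) (M : ℕ) :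
    (Measure.addHaar : Measure (Fin n → ℤ_[p])) (DM A m c e M \ DM A m c e (M + 1)) =
      ∑' w : {w : (Fin n → ℕ) × ℕ // ph A m c e w = M},
        (Measure.addHaar : Measure (Fin n → ℤ_[p])) (SS m c w.1) := by
  have h1 : (Measure.addHaar : Measure (Fin n → ℤ_[p])) (DM A m c e M \ DM A m c e (M + 1)) =
      (Measure.addHaar : Measure (Fin n → ℤ_[p]))
        ((DM A m c e M \ DM A m c e (M + 1)) ∩ {x | ∀ i, x i ≠ 0}) := by
    refine (measure_inter_conull ?_).symm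
    refine measure_mono_null ?_ (null_coords (n := n) (p := p))
    intro x hx
    exact hx
  rw [h1, level_eq A m c hc e he M, measure_iUnion]
  · intro w w' hne
    exact SS_disj m c (fun h => hne (Subtype.ext h))
  · intro w
    exact meas_SS m c w.1

/-- the strata cover everything up to a null set -/
lemma measure_total (hk : 0 < k) (m : Fin k → Fin n → ℕ) (hm : AffInd m) (c : Fin k → ℤ_[p])
    (hc : ∀ j, c j ≠ 0) :
    (Measure.addHaar : Measure (Fin n → ℤ_[p])) Set.univ =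
      ∑' w : (Fin n → ℕ) × ℕ, (Measure.addHaar : Measure (Fin n → ℤ_[p])) (SS m c w) := by
  obtain ⟨B, C, hB1, hBC, hE⟩ := measure_EE (p := p) m hm hk c hc
  have hp1 : (1 : ℝ) < p := by exact_mod_cast hp.out.one_lt
  have hp0 : (0 : ℝ) < p := by linarith
  rw [← measure_iUnion (SS_disj m c) (fun w => meas_SS m c w)]
  have hnull : ∀ u : Fin n → ℕ, (Measure.addHaar : Measure (Fin n → ℤ_[p]))
      {x | (∀ i, ‖x i‖ = (p : ℝ) ^ (-(u i : ℤ))) ∧ GG m c x = 0} = 0 := by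
    intro u
    obtain ⟨j, hj⟩ := N0_mem hk m c u
    have hpat : ∃ j, pat m c B u j = 0 := ⟨j, by unfold pat; rw [hj]; simp⟩
    have h1 : ∀ l : ℕ, ((Measure.addHaar : Measure (Fin n → ℤ_[p]))
        {x | (∀ i, ‖x i‖ = (p : ℝ) ^ (-(u i : ℤ))) ∧ GG m c x = 0}).toReal ≤
        ((p : ℝ)⁻¹) ^ l * (((Measure.addHaar : Measure (Fin n → ℤ_[p])) Set.univ).toReal *
          (((p : ℝ)⁻¹) ^ (∑ i, u i) * C (pat m c B u) B)) := by
      intro l
      have h2 := hE u (B + l)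
      rw [hBC _ hpat l] at h2
      have h3 : ((Measure.addHaar : Measure (Fin n → ℤ_[p])) (EE m c u (B + l))).toReal =
          ((p : ℝ)⁻¹) ^ l * (((Measure.addHaar : Measure (Fin n → ℤ_[p])) Set.univ).toReal *
          (((p : ℝ)⁻¹) ^ (∑ i, u i) * C (pat m c B u) B)) := by
        rw [h2]; ring
      rw [← h3]
      refine ENNReal.toReal_mono (measure_ne_top _ _) (measure_mono ?_)
      rintro x ⟨hx1, hx2⟩
      exact ⟨hx1, by rw [hx2]; exact dvd_zero _⟩
    have h4 := (tendsto_pow_atTop_nhds_zero_of_lt_one (inv_nonneg.2 hp0.le)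
      (inv_lt_one_of_one_lt₀ hp1)).mul_const
      (((Measure.addHaar : Measure (Fin n → ℤ_[p])) Set.univ).toReal *
          (((p : ℝ)⁻¹) ^ (∑ i, u i) * C (pat m c B u) B))
    rw [zero_mul] at h4
    have h7 := ge_of_tendsto' h4 h1
    have h8 := le_antisymm h7 ENNReal.toReal_nonneg
    rcases (ENNReal.toReal_eq_zero_iff _).1 h8 with h | h
    · exact h
    · exact absurd h (measure_ne_top _ _)
  have hcompl : (⋃ w, SS m c w)ᶜ ⊆ {x : Fin n → ℤ_[p] | ¬ ∀ i, x i ≠ 0} ∪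
      ⋃ u : Fin n → ℕ, {x | (∀ i, ‖x i‖ = (p : ℝ) ^ (-(u i : ℤ))) ∧ GG m c x = 0} := by
    intro x hx
    by_cases h1 : ∀ i, x i ≠ 0
    · right
      refine Set.mem_iUnion.2 ⟨fun i => (x i).valuation, fun i =>
        PadicInt.norm_eq_zpow_neg_valuation (h1 i), ?_⟩
      by_contra hG
      apply hx
      have h4 := GG_dvd m c hc x h1
      rw [dvd_iff_val hG] at h4
      refine Set.mem_iUnion.2 ⟨(fun i => (x i).valuation,
        (GG m c x).valuation - N0 m c (fun i => (x i).valuation)), ?_⟩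
      rw [mem_SS_iff]
      refine ⟨fun i => ⟨h1 i, rfl⟩, hG, ?_⟩
      show (GG m c x).valuation = N0 m c (fun i => (x i).valuation) + _
      omega
    · left
      exact h1
  have h0 : (Measure.addHaar : Measure (Fin n → ℤ_[p])) (⋃ w, SS m c w)ᶜ = 0 := by
    refine measure_mono_null hcompl ?_
    rw [measure_union_null_iff]
    refine ⟨null_coords, ?_⟩
    rw [measure_iUnion_null_iff]
    exact hnull
  exact (measure_of_measure_compl_eq_zero h0).symm

end meas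

end Pool.Agent.W422.SM
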