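import Pool.Agent.W424.SM.ZMU
import Pool.Agent.W22.SM.ZMA

/-!
# Distribution of the order on the units, for every prime
-/

set_option autoImplicit false
set_option linter.unusedSectionVars false

namespace Pool.Agent.W422.SM

open MeasureTheory Pool.Agent.W426.SM Pool.Agent.W424.SM.ZMU

variable {n k : ℕ} {p : ℕ} [hp : Fact p.Prime]

/-- product formula for a first order perturbation -/
lemma prod_taylor (m : Fin n → ℕ) (y lam : Fin n → ℤ_[p]) (x : ℤ_[p]) :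
    ∃ E : ℤ_[p], ∏ i, (y i * (1 + lam i * x)) ^ m i =
      (∏ i, y i ^ m i) * (1 + (∑ i, (m i : ℤ_[p]) * lam i) * x) + E * x ^ 2 := by
  have h1 : ∀ s : Finset (Fin n), ∃ E : ℤ_[p], ∏ i ∈ s, (1 + lam i * x) ^ m i =
      (1 + (∑ i ∈ s, (m i : ℤ_[p]) * lam i) * x) + E * x ^ 2 := by
    classical
    intro s
    induction s using Finset.induction_on with
    | empty => exact ⟨0, by simp⟩
    | insert i s hi ih =>
      obtain ⟨E, hE⟩ := ih
      obtain ⟨F, hF⟩ := Polynomial.powAddExpansion (1 : ℤ_[p]) (lam i * x) (m i)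
      refine ⟨F * lam i ^ 2 * ((1 + (∑ i ∈ s, (m i : ℤ_[p]) * lam i) * x) + E * x ^ 2) +
          ((m i : ℤ_[p]) * lam i) * (∑ i ∈ s, (m i : ℤ_[p]) * lam i) +
          (1 + (m i : ℤ_[p]) * lam i * x) * E, ?_⟩
      rw [Finset.prod_insert hi, Finset.sum_insert hi, hE, hF]
      simp only [one_pow, mul_one]
      ring
  obtain ⟨E, hE⟩ := h1 Finset.univ
  refine ⟨(∏ i, y i ^ m i) * E, ?_⟩
  simp only [mul_pow]
  rw [Finset.prod_mul_distrib, hE]
  ring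

lemma GG_taylor (m : Fin k → Fin n → ℕ) (b : Fin k → ℤ_[p]) (y lam : Fin n → ℤ_[p]) (x : ℤ_[p]) :
    ∃ E : ℤ_[p], GG m b (fun i => y i * (1 + lam i * x)) =
      GG m b y + (∑ i, lam i * DD m b i y) * x + E * x ^ 2 := by
  choose E hE using fun j => prod_taylor (m j) y lam x
  refine ⟨∑ j, b j * E j, ?_⟩
  unfold GG DD XX
  simp only [hE]
  have h1 : ∑ i, lam i * ∑ j, (m j i : ℤ_[p]) * (b j * ∏ i, y i ^ m j i) =
      ∑ j, (b j * ∏ i, y i ^ m j i) * ∑ i, (m j i : ℤ_[p]) * lam i := by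
    simp only [Finset.mul_sum]
    rw [Finset.sum_comm]
    refine Finset.sum_congr rfl fun j _ => Finset.sum_congr rfl fun i _ => by ring
  rw [h1, Finset.sum_mul, Finset.sum_mul, ← Finset.sum_add_distrib, ← Finset.sum_add_distrib]
  refine Finset.sum_congr rfl fun j _ => by ring

/-- the units where `p ^ l` divides -/
def VV (m : Fin k → Fin n → ℕ) (b : Fin k → ℤ_[p]) (l : ℕ) : Set (Fin n → ℤ_[p]) :=
  {y | (∀ i, ‖y i‖ = 1) ∧ (p : ℤ_[p]) ^ l ∣ GG m b y}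

/-- multiplication by a principal unit -/
noncomputable def mulu (lam : Fin n → ℤ_[p]) (x : ℤ_[p]) :
    (Fin n → ℤ_[p]) → (Fin n → ℤ_[p]) := fun y i => y i * (1 + lam i * x)

lemma norm_one_add {z : ℤ_[p]} (hz : ‖z‖ < 1) : ‖1 + z‖ = 1 := by
  have h : ‖z‖ < ‖(1 : ℤ_[p])‖ := by rw [norm_one]; exact hz
  rw [add_comm, PadicInt.norm_add_eq_max_of_ne h.ne, norm_one, max_eq_right hz.le]

section key

variable (m : Fin k → Fin n → ℕ) (b : Fin k → ℤ_[p])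

/-- the identity which comes from the affine independence -/
lemma hid {N : ℕ} {B₀ : Fin k → ℤ} {B : Fin k → Fin n → ℤ}
    (hB : ∀ j j' : Fin k, B₀ j + ∑ i, B j i * (m j' i : ℤ) = if j' = j then (N : ℤ) else 0)
    (j₀ : Fin k) (y : Fin n → ℤ_[p]) :
    (N : ℤ_[p]) * XX m b y j₀ = (B₀ j₀ : ℤ_[p]) * GG m b y +
      ∑ i, (B j₀ i : ℤ_[p]) * DD m b i y := by
  classical
  unfold GG DD
  have h1 : ∑ i, (B j₀ i : ℤ_[p]) * ∑ j, (m j i : ℤ_[p]) * XX m b y j =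
      ∑ j, (∑ i, (B j₀ i : ℤ_[p]) * (m j i : ℤ_[p])) * XX m b y j := by
    simp only [Finset.mul_sum, Finset.sum_mul]
    rw [Finset.sum_comm]
    refine Finset.sum_congr rfl fun j _ => Finset.sum_congr rfl fun i _ => by ring
  rw [h1, Finset.mul_sum, ← Finset.sum_add_distrib]
  have h2 : ∀ j, (B₀ j₀ : ℤ_[p]) * XX m b y j +
      (∑ i, (B j₀ i : ℤ_[p]) * (m j i : ℤ_[p])) * XX m b y j =
      if j = j₀ then (N : ℤ_[p]) * XX m b y j else 0 := by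
    intro j
    have h3 : ((B₀ j₀ : ℤ_[p]) + ∑ i, (B j₀ i : ℤ_[p]) * (m j i : ℤ_[p])) =
        if j = j₀ then (N : ℤ_[p]) else 0 := by
      have := congrArg (fun t : ℤ => (t : ℤ_[p])) (hB j₀ j)
      simp only [Int.cast_add, Int.cast_sum, Int.cast_mul, Int.cast_natCast] at this
      rw [this]
      split_ifs <;> simp
    rw [← add_mul, h3]
    split_ifs <;> simp
  rw [Finset.sum_congr rfl fun j _ => h2 j, Finset.sum_ite_eq' Finset.univ j₀]
  simp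

lemma key_r {N : ℕ} {B₀ : Fin k → ℤ} {B : Fin k → Fin n → ℤ}
    (hB : ∀ j j' : Fin k, B₀ j + ∑ i, B j i * (m j' i : ℤ) = if j' = j then (N : ℤ) else 0)
    (v : ℕ) (N' : ℤ_[p]) (hv : (N : ℤ_[p]) = (p : ℤ_[p]) ^ v * N')
    (l : ℕ) (hl : 2 * v + 1 ≤ l) (j₀ : Fin k) (y : Fin n → ℤ_[p]) (r : ℤ_[p]) :
    ∃ (E F : ℤ_[p]),
      GG m b (mulu (fun i => (B j₀ i : ℤ_[p])) ((p : ℤ_[p]) ^ (l - v) * r) y) =
        GG m b y * (1 + p * E) + (p : ℤ_[p]) ^ l * (r * (N' * XX m b y j₀)) +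
          (p : ℤ_[p]) ^ (l + 1) * F := by
  obtain ⟨E, hE⟩ := GG_taylor m b y (fun i => (B j₀ i : ℤ_[p])) ((p : ℤ_[p]) ^ (l - v) * r)
  obtain ⟨s, hs⟩ : ∃ s, l = v + (v + 1 + s) := ⟨l - (2 * v + 1), by omega⟩
  have e1 : l - v = v + 1 + s := by omega
  refine ⟨-(B₀ j₀ : ℤ_[p]) * ((p : ℤ_[p]) ^ (v + s) * r), E * (p : ℤ_[p]) ^ s * r ^ 2, ?_⟩
  unfold mulu
  rw [hE]
  have h1 : ∑ i, (B j₀ i : ℤ_[p]) * DD m b i y = (N : ℤ_[p]) * XX m b y j₀ -
      (B₀ j₀ : ℤ_[p]) * GG m b y := by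
    rw [hid m b hB j₀ y]; ring
  rw [h1, hv, e1, hs]
  ring

/-- the residue classes which lift -/
lemma lift_iff {N : ℕ} {B₀ : Fin k → ℤ} {B : Fin k → Fin n → ℤ}
    (hB : ∀ j j' : Fin k, B₀ j + ∑ i, B j i * (m j' i : ℤ) = if j' = j then (N : ℤ) else 0)
    (v : ℕ) (N' : ℤ_[p]) (hN' : ‖N'‖ = 1) (hv : (N : ℤ_[p]) = (p : ℤ_[p]) ^ v * N')
    (l : ℕ) (hl : 2 * v + 1 ≤ l) (j₀ : Fin k) (hj₀ : ‖b j₀‖ = 1)
    (y : Fin n → ℤ_[p]) (hy : y ∈ VV m b l) :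
    ∃ r₀ : ZMod p, ∀ r : ℕ,
      mulu (fun i => (B j₀ i : ℤ_[p])) ((p : ℤ_[p]) ^ (l - v) * (r : ℤ_[p])) y ∈
        VV m b (l + 1) ↔ (r : ZMod p) = r₀ := by
  obtain ⟨hu, w, hw⟩ := hy
  have hX : ‖XX m b y j₀‖ = 1 := by
    unfold XX
    rw [norm_mul, hj₀, one_mul, norm_prod]
    exact Finset.prod_eq_one fun i _ => by rw [norm_pow, hu i, one_pow]
  have hU : PadicInt.toZMod (N' * XX m b y j₀) ≠ 0 := by
    rw [toZMod_ne_zero, norm_mul, hN', hX, one_mul]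
  refine ⟨- PadicInt.toZMod w / PadicInt.toZMod (N' * XX m b y j₀), fun r => ?_⟩
  obtain ⟨E, F, hEF⟩ := key_r m b hB v N' hv l hl j₀ y (r : ℤ_[p])
  have hlt : ‖(p : ℤ_[p]) ^ (l - v)‖ < 1 := by
    rw [PadicInt.norm_lt_one_iff_dvd]
    exact dvd_pow_self _ (by omega)
  have hmu : ∀ i, ‖mulu (fun i => (B j₀ i : ℤ_[p])) ((p : ℤ_[p]) ^ (l - v) * (r : ℤ_[p])) y i‖
      = 1 := by
    intro i
    unfold mulu
    rw [norm_mul, hu i, one_mul]
    apply norm_one_add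
    rw [← mul_assoc, norm_mul, norm_mul]
    have h1 := PadicInt.norm_le_one (B j₀ i : ℤ_[p])
    have h2 := PadicInt.norm_le_one (r : ℤ_[p])
    calc ‖(B j₀ i : ℤ_[p])‖ * ‖(p : ℤ_[p]) ^ (l - v)‖ * ‖(r : ℤ_[p])‖
        ≤ 1 * ‖(p : ℤ_[p]) ^ (l - v)‖ * 1 := by gcongr
      _ < 1 := by rw [one_mul, mul_one]; exact hlt
  have e : mulu (fun i => (B j₀ i : ℤ_[p])) ((p : ℤ_[p]) ^ (l - v) * (r : ℤ_[p])) y ∈
      VV m b (l + 1) ↔ (p : ℤ_[p]) ^ (l + 1) ∣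
        GG m b (mulu (fun i => (B j₀ i : ℤ_[p])) ((p : ℤ_[p]) ^ (l - v) * (r : ℤ_[p])) y) :=
    ⟨fun h => h.2, fun h => ⟨hmu, h⟩⟩
  rw [e, hEF, hw]
  have e2 : (p : ℤ_[p]) ^ l * w * (1 + p * E) +
      (p : ℤ_[p]) ^ l * ((r : ℤ_[p]) * (N' * XX m b y j₀)) + (p : ℤ_[p]) ^ (l + 1) * F =
      (p : ℤ_[p]) ^ l * (w + (N' * XX m b y j₀) * r + p * (w * E + F)) := by
    rw [pow_succ (p : ℤ_[p]) l]
    ring
  rw [e2, pow_succ (p : ℤ_[p]) l]
  have hp0 : (p : ℤ_[p]) ^ l ≠ 0 := pow_ne_zero _ (by exact_mod_cast hp.out.ne_zero)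
  rw [mul_dvd_mul_iff_left hp0, ← toZMod_eq_zero', map_add, map_mul PadicInt.toZMod (p : ℤ_[p]),
    toZMod_p, zero_mul, add_zero, map_add, map_mul PadicInt.toZMod (N' * XX m b y j₀), map_natCast,
    eq_div_iff hU, eq_neg_iff_add_eq_zero, add_comm, mul_comm]

lemma of_lift {N : ℕ} {B₀ : Fin k → ℤ} {B : Fin k → Fin n → ℤ}
    (hB : ∀ j j' : Fin k, B₀ j + ∑ i, B j i * (m j' i : ℤ) = if j' = j then (N : ℤ) else 0)
    (v : ℕ) (N' : ℤ_[p]) (hv : (N : ℤ_[p]) = (p : ℤ_[p]) ^ v * N')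
    (l : ℕ) (hl : 2 * v + 1 ≤ l) (j₀ : Fin k)
    (r : ℕ) (y : Fin n → ℤ_[p])
    (hy : mulu (fun i => (B j₀ i : ℤ_[p])) ((p : ℤ_[p]) ^ (l - v) * (r : ℤ_[p])) y ∈
        VV m b (l + 1)) : y ∈ VV m b l := by
  obtain ⟨hu, hd⟩ := hy
  have hlt : ‖(p : ℤ_[p]) ^ (l - v)‖ < 1 := by
    rw [PadicInt.norm_lt_one_iff_dvd]
    exact dvd_pow_self _ (by omega)
  have hmu : ∀ i, ‖1 + (B j₀ i : ℤ_[p]) * ((p : ℤ_[p]) ^ (l - v) * (r : ℤ_[p]))‖ = 1 := by
    intro i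
    apply norm_one_add
    rw [← mul_assoc, norm_mul, norm_mul]
    have h1 := PadicInt.norm_le_one (B j₀ i : ℤ_[p])
    have h2 := PadicInt.norm_le_one (r : ℤ_[p])
    calc ‖(B j₀ i : ℤ_[p])‖ * ‖(p : ℤ_[p]) ^ (l - v)‖ * ‖(r : ℤ_[p])‖
        ≤ 1 * ‖(p : ℤ_[p]) ^ (l - v)‖ * 1 := by gcongr
      _ < 1 := by rw [one_mul, mul_one]; exact hlt
  refine ⟨fun i => ?_, ?_⟩
  · have h := hu i
    unfold mulu at h
    rw [norm_mul, hmu i, mul_one] at h
    exact h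
  · obtain ⟨E, F, hEF⟩ := key_r m b hB v N' hv l hl j₀ y (r : ℤ_[p])
    rw [hEF] at hd
    have h1 : (p : ℤ_[p]) ^ l ∣ GG m b y * (1 + p * E) := by
      have h2 : (p : ℤ_[p]) ^ l ∣ GG m b y * (1 + p * E) +
          (p : ℤ_[p]) ^ l * ((r : ℤ_[p]) * (N' * XX m b y j₀)) + (p : ℤ_[p]) ^ (l + 1) * F :=
        (pow_dvd_pow _ (by omega)).trans hd
      rw [add_assoc] at h2
      refine (dvd_add_left ?_).1 h2
      refine dvd_add (dvd_mul_right _ _) ?_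
      rw [pow_succ, mul_assoc]
      exact dvd_mul_right _ _
    have hun : IsUnit (1 + (p : ℤ_[p]) * E) := by
      rw [PadicInt.isUnit_iff]
      apply norm_one_add
      rw [PadicInt.norm_lt_one_iff_dvd]
      exact dvd_mul_right _ _
    exact hun.dvd_mul_right.1 h1

/-- decomposition according to the residue class -/
lemma VV_eq {N : ℕ} {B₀ : Fin k → ℤ} {B : Fin k → Fin n → ℤ}
    (hB : ∀ j j' : Fin k, B₀ j + ∑ i, B j i * (m j' i : ℤ) = if j' = j then (N : ℤ) else 0)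
    (v : ℕ) (N' : ℤ_[p]) (hN' : ‖N'‖ = 1) (hv : (N : ℤ_[p]) = (p : ℤ_[p]) ^ v * N')
    (l : ℕ) (hl : 2 * v + 1 ≤ l) (j₀ : Fin k) (hj₀ : ‖b j₀‖ = 1) :
    VV m b l = ⋃ r ∈ Finset.range p,
      (mulu (fun i => (B j₀ i : ℤ_[p])) ((p : ℤ_[p]) ^ (l - v) * (r : ℤ_[p]))) ⁻¹'
        VV m b (l + 1) := by
  ext y
  simp only [Set.mem_iUnion, Set.mem_preimage, exists_prop]
  constructor
  · intro hy
    obtain ⟨r₀, hr⟩ := lift_iff m b hB v N' hN' hv l hl j₀ hj₀ y hy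
    refine ⟨r₀.val, Finset.mem_range.2 (ZMod.val_lt r₀), ?_⟩
    rw [hr]
    exact ZMod.natCast_zmod_val r₀
  · rintro ⟨r, -, hr⟩
    exact of_lift m b hB v N' hv l hl j₀ r y hr

lemma VV_disj {N : ℕ} {B₀ : Fin k → ℤ} {B : Fin k → Fin n → ℤ}
    (hB : ∀ j j' : Fin k, B₀ j + ∑ i, B j i * (m j' i : ℤ) = if j' = j then (N : ℤ) else 0)
    (v : ℕ) (N' : ℤ_[p]) (hN' : ‖N'‖ = 1) (hv : (N : ℤ_[p]) = (p : ℤ_[p]) ^ v * N')
    (l : ℕ) (hl : 2 * v + 1 ≤ l) (j₀ : Fin k) (hj₀ : ‖b j₀‖ = 1) :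
    Set.PairwiseDisjoint (↑(Finset.range p) : Set ℕ) (fun r : ℕ =>
      (mulu (fun i => (B j₀ i : ℤ_[p])) ((p : ℤ_[p]) ^ (l - v) * (r : ℤ_[p]))) ⁻¹'
        VV m b (l + 1)) := by
  intro r hr r' hr' hne
  rw [Function.onFun, Set.disjoint_left]
  intro y h1 h2
  have hy : y ∈ VV m b l := of_lift m b hB v N' hv l hl j₀ r y h1
  obtain ⟨r₀, hr₀⟩ := lift_iff m b hB v N' hN' hv l hl j₀ hj₀ y hy
  have e1 := (hr₀ r).1 h1
  have e2 := (hr₀ r').1 h2
  rw [Finset.coe_range, Set.mem_Iio] at hr hr'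
  apply hne
  have e3 : (r : ZMod p) = (r' : ZMod p) := by rw [e1, e2]
  rw [ZMod.natCast_eq_natCast_iff'] at e3
  rwa [Nat.mod_eq_of_lt hr, Nat.mod_eq_of_lt hr'] at e3

end key

section meas

variable (m : Fin k → Fin n → ℕ) (b : Fin k → ℤ_[p])
  [MeasurableSpace (Fin n → ℤ_[p])] [BorelSpace (Fin n → ℤ_[p])]

lemma meas_units : MeasurableSet {y : Fin n → ℤ_[p] | ∀ i', ‖y i'‖ = 1} := by
  have : {y : Fin n → ℤ_[p] | ∀ i', ‖y i'‖ = 1} = ⋂ i', {y | ‖y i'‖ = 1} := by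
    ext y
    simp
  rw [this]
  exact MeasurableSet.iInter fun i' =>
    (isClosed_eq (continuous_apply i').norm continuous_const).measurableSet

lemma meas_VV (l : ℕ) : MeasurableSet (VV m b l) :=
  meas_units.inter (meas_dvd m b l)

/-- multiplication by units preserves the Haar measure -/
lemma measure_mulu (lam : Fin n → ℤ_[p]) (x : ℤ_[p]) (hx : ‖x‖ < 1)
    (S : Set (Fin n → ℤ_[p])) (hS : MeasurableSet S) :
    (Measure.addHaar : Measure (Fin n → ℤ_[p])) (mulu lam x ⁻¹' S) =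
      (Measure.addHaar : Measure (Fin n → ℤ_[p])) S := by
  have hu : ∀ i, IsUnit (1 + lam i * x) := by
    intro i
    rw [PadicInt.isUnit_iff]
    apply norm_one_add
    rw [norm_mul]
    calc ‖lam i‖ * ‖x‖ ≤ 1 * ‖x‖ := by gcongr; exact PadicInt.norm_le_one _
      _ < 1 := by rw [one_mul]; exact hx
  choose t ht using hu
  let e : (Fin n → ℤ_[p]) ≃+ (Fin n → ℤ_[p]) :=
    { toFun := fun y i => y i * t i
      invFun := fun y i => y i * ((t i)⁻¹ : (ℤ_[p])ˣ)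
      left_inv := fun y => by funext i; simp
      right_inv := fun y => by funext i; simp
      map_add' := fun y z => by funext i; simp [add_mul] }
  have hc : Continuous e := continuous_pi fun i => (continuous_apply i).mul continuous_const
  have hc' : Continuous e.symm := continuous_pi fun i => (continuous_apply i).mul continuous_const
  have hme : Measurable e := hc.measurable
  have he : mulu lam x = e := by
    funext y i
    show y i * (1 + lam i * x) = y i * t i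
    rw [ht i]
  rw [he, ← Measure.map_apply hme hS]
  have h1 : (Measure.addHaar : Measure (Fin n → ℤ_[p])).map e = Measure.addHaar := by
    have h2 : ((Measure.addHaar : Measure (Fin n → ℤ_[p])).map e).IsAddHaarMeasure :=
      AddEquiv.isAddHaarMeasure_map (Measure.addHaar : Measure (Fin n → ℤ_[p])) e hc hc'
    have h3 := Measure.isAddInvariant_eq_smul_of_compactSpace
      ((Measure.addHaar : Measure (Fin n → ℤ_[p])).map e) Measure.addHaar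
    have h4 := congrArg (fun μ : Measure (Fin n → ℤ_[p]) => μ Set.univ) h3
    simp only [Measure.smul_apply] at h4
    rw [Measure.map_apply hme MeasurableSet.univ, Set.preimage_univ] at h4
    have h5 : (Measure.addHaar : Measure (Fin n → ℤ_[p])) Set.univ ≠ 0 :=
      Measure.measure_univ_ne_zero.2 (NeZero.ne _)
    have h6 : (Measure.addHaar : Measure (Fin n → ℤ_[p])) Set.univ ≠ ⊤ := measure_ne_top _ _
    rw [h3]
    have h7 : ((Measure.addHaar : Measure (Fin n → ℤ_[p])).map e).addHaarScalarFactor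
        Measure.addHaar = 1 := by
      rw [ENNReal.smul_def, smul_eq_mul] at h4
      have h8 : ((((Measure.addHaar : Measure (Fin n → ℤ_[p])).map e).addHaarScalarFactor
        Measure.addHaar : NNReal) : ENNReal) = 1 := by
        have h9 : (Measure.addHaar : Measure (Fin n → ℤ_[p])) Set.univ =
            1 * (Measure.addHaar : Measure (Fin n → ℤ_[p])) Set.univ := (one_mul _).symm
        rw [h9] at h4
        simp only [one_mul] at h4
        exact ((ENNReal.mul_eq_right h5 h6).1 h4.symm)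
      exact_mod_cast h8
    rw [h7, one_smul]
  rw [h1]

lemma VV_succ {N : ℕ} {B₀ : Fin k → ℤ} {B : Fin k → Fin n → ℤ}
    (hB : ∀ j j' : Fin k, B₀ j + ∑ i, B j i * (m j' i : ℤ) = if j' = j then (N : ℤ) else 0)
    (v : ℕ) (N' : ℤ_[p]) (hN' : ‖N'‖ = 1) (hv : (N : ℤ_[p]) = (p : ℤ_[p]) ^ v * N')
    (l : ℕ) (hl : 2 * v + 1 ≤ l) (j₀ : Fin k) (hj₀ : ‖b j₀‖ = 1) :
    (Measure.addHaar : Measure (Fin n → ℤ_[p])) (VV m b l) =
      p * (Measure.addHaar : Measure (Fin n → ℤ_[p])) (VV m b (l + 1)) := by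
  have hlt : ∀ r : ℕ, ‖(p : ℤ_[p]) ^ (l - v) * (r : ℤ_[p])‖ < 1 := by
    intro r
    rw [PadicInt.norm_lt_one_iff_dvd]
    exact Dvd.dvd.mul_right (dvd_pow_self _ (by omega)) _
  have hmm : ∀ r : ℕ, Measurable
      (mulu (fun i => (B j₀ i : ℤ_[p])) ((p : ℤ_[p]) ^ (l - v) * (r : ℤ_[p]))) := by
    intro r
    have hc : Continuous
      (mulu (fun i => (B j₀ i : ℤ_[p])) ((p : ℤ_[p]) ^ (l - v) * (r : ℤ_[p]))) :=
      continuous_pi fun i => (continuous_apply i).mul continuous_const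
    exact hc.measurable
  rw [VV_eq m b hB v N' hN' hv l hl j₀ hj₀,
    measure_biUnion_finset (VV_disj m b hB v N' hN' hv l hl j₀ hj₀)]
  · have h1 : ∀ r ∈ Finset.range p, (Measure.addHaar : Measure (Fin n → ℤ_[p]))
        ((mulu (fun i => (B j₀ i : ℤ_[p])) ((p : ℤ_[p]) ^ (l - v) * (r : ℤ_[p]))) ⁻¹'
        VV m b (l + 1)) = (Measure.addHaar : Measure (Fin n → ℤ_[p])) (VV m b (l + 1)) :=
      fun r _ => measure_mulu _ _ (hlt r) _ (meas_VV m b (l + 1))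
    rw [Finset.sum_congr rfl h1, Finset.sum_const, Finset.card_range, nsmul_eq_mul]
  · intro r _
    exact (meas_VV m b (l + 1)).preimage (hmm r)

lemma VV_real {N : ℕ} {B₀ : Fin k → ℤ} {B : Fin k → Fin n → ℤ}
    (hB : ∀ j j' : Fin k, B₀ j + ∑ i, B j i * (m j' i : ℤ) = if j' = j then (N : ℤ) else 0)
    (v : ℕ) (N' : ℤ_[p]) (hN' : ‖N'‖ = 1) (hv : (N : ℤ_[p]) = (p : ℤ_[p]) ^ v * N')
    (j₀ : Fin k) (hj₀ : ‖b j₀‖ = 1) (l : ℕ) :
    ((Measure.addHaar : Measure (Fin n → ℤ_[p])) (VV m b (2 * v + 1 + l))).toReal =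
      ((p : ℝ)⁻¹) ^ l *
      ((Measure.addHaar : Measure (Fin n → ℤ_[p])) (VV m b (2 * v + 1))).toReal := by
  have hp0 : (p : ℝ) ≠ 0 := by exact_mod_cast hp.out.ne_zero
  induction l with
  | zero => simp
  | succ l ih =>
    have h := congrArg ENNReal.toReal (VV_succ m b hB v N' hN' hv (2 * v + 1 + l)
      (by omega) j₀ hj₀)
    rw [ENNReal.toReal_mul, ENNReal.toReal_natCast, ih] at h
    rw [pow_succ, ← add_assoc]
    have h3 : (p : ℝ)⁻¹ * p = 1 := inv_mul_cancel₀ hp0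
    calc ((Measure.addHaar : Measure (Fin n → ℤ_[p])) (VV m b (2 * v + 1 + l + 1))).toReal
        = (p : ℝ)⁻¹ * (p * ((Measure.addHaar : Measure (Fin n → ℤ_[p]))
          (VV m b (2 * v + 1 + l + 1))).toReal) := by rw [← mul_assoc, h3, one_mul]
      _ = _ := by rw [← h]; ring

lemma VV_congr {b b' : Fin k → ℤ_[p]} {l : ℕ} (h : ∀ j, (p : ℤ_[p]) ^ l ∣ b j - b' j) :
    VV m b l = VV m b' l := by
  have h1 : ∀ y : Fin n → ℤ_[p], (p : ℤ_[p]) ^ l ∣ GG m b y - GG m b' y := by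
    intro y
    unfold GG XX
    rw [← Finset.sum_sub_distrib]
    refine Finset.dvd_sum fun j _ => ?_
    rw [← sub_mul]
    exact Dvd.dvd.mul_right (h j) _
  ext y
  unfold VV
  simp only [Set.mem_ofPred_eq]
  refine and_congr_right fun _ => ?_
  have h2 : GG m b y = (GG m b y - GG m b' y) + GG m b' y := by ring
  rw [h2]
  exact dvd_add_right (h1 y)

end meas

end Pool.Agent.W422.SM
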