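import Pool.Agent.W422.SM.S
import Pool.Agent.W565.SMZC
import Pool.Agent.W803.SM.ZF

/-!
# The zeta function as a rational function of `T`, for every prime
-/

set_option autoImplicit false
set_option linter.unusedSectionVars false

namespace Pool.Agent.W422.SM

open MeasureTheory Pool.Agent.W426.SM Pool.Agent.W424.SM.ZMU Pool.Agent.W22.SM.ZMA

/-! ### polynomial functions on the unit disc -/

/-- polynomial functions on the closed unit disc -/
def PolyOn (F : ℂ → ℂ) : Prop := ∃ R : Polynomial ℂ, ∀ T : ℂ, ‖T‖ ≤ 1 → F T = R.eval T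

namespace PolyOn

theorem const (a : ℂ) : PolyOn fun _ => a := ⟨Polynomial.C a, fun T _ => by simp⟩
theorem id : PolyOn fun T => T := ⟨Polynomial.X, fun T _ => by simp⟩

theorem add {F G : ℂ → ℂ} (hF : PolyOn F) (hG : PolyOn G) : PolyOn fun T => F T + G T := by
  obtain ⟨R, hR⟩ := hF
  obtain ⟨S, hS⟩ := hG
  exact ⟨R + S, fun T hT => by beta_reduce; rw [hR T hT, hS T hT, Polynomial.eval_add]⟩

theorem sub {F G : ℂ → ℂ} (hF : PolyOn F) (hG : PolyOn G) : PolyOn fun T => F T - G T := by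
  obtain ⟨R, hR⟩ := hF
  obtain ⟨S, hS⟩ := hG
  exact ⟨R - S, fun T hT => by beta_reduce; rw [hR T hT, hS T hT, Polynomial.eval_sub]⟩

theorem mul {F G : ℂ → ℂ} (hF : PolyOn F) (hG : PolyOn G) : PolyOn fun T => F T * G T := by
  obtain ⟨R, hR⟩ := hF
  obtain ⟨S, hS⟩ := hG
  exact ⟨R * S, fun T hT => by beta_reduce; rw [hR T hT, hS T hT, Polynomial.eval_mul]⟩

theorem pow {F : ℂ → ℂ} (hF : PolyOn F) (r : ℕ) : PolyOn fun T => F T ^ r := by
  obtain ⟨R, hR⟩ := hF
  exact ⟨R ^ r, fun T hT => by beta_reduce; rw [hR T hT, Polynomial.eval_pow]⟩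

theorem sum {ι : Type*} (s : Finset ι) {F : ι → ℂ → ℂ} (hF : ∀ i, PolyOn (F i)) :
    PolyOn fun T => ∑ i ∈ s, F i T := by
  choose R hR using hF
  exact ⟨∑ i ∈ s, R i, fun T hT => by
    rw [Polynomial.eval_finsetSum]
    exact Finset.sum_congr rfl fun i _ => hR i T hT⟩

theorem prod {ι : Type*} (s : Finset ι) {F : ι → ℂ → ℂ} (hF : ∀ i, PolyOn (F i)) :
    PolyOn fun T => ∏ i ∈ s, F i T := by
  choose R hR using hF
  exact ⟨∏ i ∈ s, R i, fun T hT => by
    rw [Polynomial.eval_prod]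
    exact Finset.prod_congr rfl fun i _ => hR i T hT⟩

theorem aeval {n : ℕ} {f : ℂ → Fin n → ℂ} (hf : ∀ i, PolyOn (fun T => f T i))
    (P : MvPolynomial (Fin n) ℤ) : PolyOn (fun T => MvPolynomial.aeval (f T) P) := by
  induction P using MvPolynomial.induction_on with
  | C a => simpa using const (a : ℂ)
  | add P Q hP hQ =>
    simp only [map_add]
    exact hP.add hQ
  | mul_X P i hP =>
    simp only [map_mul, MvPolynomial.aeval_X]
    exact hP.mul (hf i)

end PolyOn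

variable {n k : ℕ} {p : ℕ} [hp : Fact p.Prime]

/-- the weight of `u` -/
noncomputable def WW (p : ℕ) (T : ℂ) (N : (Fin n → ℕ) → ℕ) (u : Fin n → ℕ) : ℂ :=
  ((p : ℂ)⁻¹) ^ (∑ i, u i) * T ^ N u

/-- the exponent on the stratum -/
noncomputable def NN (A : Fin n → ℕ) (m : Fin k → Fin n → ℕ) (c : Fin k → ℤ_[p]) (e : ℕ)
    (u : Fin n → ℕ) : ℕ := ∑ i, u i * A i + e * N0 m c u

/-- generating function of a pattern -/
theorem key_pat (A : Fin n → ℕ) (m : Fin k → Fin n → ℕ) (c : Fin k → ℤ_[p]) (e : ℕ) (B : ℕ)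
    (hB : 1 ≤ B) (ρ : Fin k → ℕ) (hρB : ∀ j, ρ j ≤ B) (hρ : ∃ j, ρ j = 0) :
    ∃ (E : ℕ) (ray : Fin E → Fin n → ℕ), (∀ q, IsRay m (ray q)) ∧
      PolyOn fun T => (∑' u : ({u | pat m c B u = ρ} : Set (Fin n → ℕ)),
        WW p T (NN A m c e) u) * ∏ q, (1 - WW p T (ford A m e) (ray q)) := by
  obtain ⟨j0, hj0⟩ := hρ
  obtain ⟨E, ray, P, hray, hP⟩ := Pool.Agent.W565.SMZC.main (fun l i => (m l i : ℤ) - m j0 i)
    (fun l => (ρ l : ℤ) - (c l).valuation + (c j0).valuation)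
    (Finset.univ.filter fun l => ρ l < B)
  have hsum : ∀ (l : Fin k) (u : Fin n → ℕ), ∑ i, ((m l i : ℤ) - m j0 i) * (u i : ℤ) =
      ((∑ i, u i * m l i : ℕ) : ℤ) - ((∑ i, u i * m j0 i : ℕ) : ℤ) := by
    intro l u
    push_cast
    rw [← Finset.sum_sub_distrib]
    refine Finset.sum_congr rfl fun i _ => ?_
    ring
  have hpat0 : ∀ u : Fin n → ℕ, pat m c B u = ρ → dl m c u j0 = N0 m c u := by
    intro u hu
    have h1 := congrFun hu j0
    rw [hj0] at h1
    unfold pat at h1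
    have h2 := N0_le m c u j0
    omega
  have hset : ({u | pat m c B u = ρ} : Set (Fin n → ℕ)) =
      poly (fun l i => (m l i : ℤ) - m j0 i)
        (fun l => (ρ l : ℤ) - (c l).valuation + (c j0).valuation)
        (Finset.univ.filter fun l => ρ l < B) := by
    ext u
    simp only [Set.mem_ofPred_eq, poly, hsum, Finset.mem_filter, Finset.mem_univ, true_and]
    constructor
    · intro h
      have h0 := hpat0 u h
      have hall : ∀ j, min (dl m c u j - N0 m c u) B = ρ j := fun j => congrFun h j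
      refine ⟨fun j => ?_, fun j hj => ?_⟩
      · have h1 := hall j
        have h2 := N0_le m c u j
        unfold dl at h0 h1 h2
        omega
      · have h1 := hall j
        have h2 := N0_le m c u j
        unfold dl at h0 h1 h2
        omega
    · rintro ⟨ha, hb⟩
      have h0 : dl m c u j0 = N0 m c u := by
        obtain ⟨j, hj⟩ := N0_mem (Fin.pos j0) m c u
        have h2 := ha j
        have h3 := N0_le m c u j0
        unfold dl at *
        omega
      funext j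
      show min (dl m c u j - N0 m c u) B = ρ j
      have h2 := ha j
      have h3 := N0_le m c u j
      have h4 := hρB j
      unfold dl at *
      by_cases hj : ρ j < B
      · have h5 := hb j hj
        omega
      · omega
  have hmin : ∀ q, ∑ i, ray q i * m j0 i = gord m (ray q) := by
    intro q
    obtain ⟨j, hj⟩ := Pool.Agent.W803.SM.exists_gord (Fin.pos j0) m (ray q)
    have h2 := (hray q).2.1 j
    have h3 := Pool.Agent.W803.SM.gord_le m (ray q) j0
    rw [hsum] at h2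
    omega
  refine ⟨E, ray, fun q => ⟨(hray q).1, fun u hu hu2 => ?_⟩, ?_⟩
  · refine (hray q).2.2.2 u hu fun j hj => ?_
    rw [hsum] at hj
    have hfj : face m (ray q) j := by
      have := hmin q
      show ∑ i, ray q i * m j i = gord m (ray q)
      omega
    have h2 := hu2 j j0 hfj (hmin q)
    have h3 : ∑ i, (((m j i : ℤ) - m j0 i : ℤ) : ℚ) * u i =
        ∑ i, u i * m j i - ∑ i, u i * m j0 i := by
      rw [← Finset.sum_sub_distrib]
      refine Finset.sum_congr rfl fun i _ => ?_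
      push_cast
      ring
    rw [h3, h2, sub_self]
  · have hp1 : 1 < p := hp.out.one_lt
    -- the variables
    set Y : ℂ → Fin n → ℂ := fun T i => ((p : ℂ)⁻¹) * T ^ (A i + e * m j0 i) with hY
    have hYpoly : ∀ i, PolyOn fun T => Y T i := fun i =>
      (PolyOn.const _).mul (PolyOn.id.pow _)
    have hYprod : ∀ (T : ℂ) (u : Fin n → ℕ), ∏ i, Y T i ^ u i =
        ((p : ℂ)⁻¹) ^ (∑ i, u i) * T ^ (∑ i, u i * A i + e * ∑ i, u i * m j0 i) := by
      intro T u
      simp only [hY, mul_pow, Finset.prod_mul_distrib, Finset.prod_pow_eq_pow_sum, ← pow_mul]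
      congr 2
      rw [Finset.mul_sum, ← Finset.sum_add_distrib]
      exact Finset.sum_congr rfl fun i _ => by ring
    have hYn : ∀ T : ℂ, ‖T‖ ≤ 1 → ∀ i, ‖Y T i‖ < 1 := by
      intro T hT i
      simp only [hY, norm_mul, norm_inv, norm_pow, Complex.norm_natCast]
      have h1 : ‖T‖ ^ (A i + e * m j0 i) ≤ 1 := pow_le_one₀ (norm_nonneg _) hT
      have h2 : ((p : ℝ)⁻¹) < 1 := inv_lt_one_of_one_lt₀ (by exact_mod_cast hp1)
      have h3 : (0 : ℝ) ≤ (p : ℝ)⁻¹ := by positivity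
      calc (p : ℝ)⁻¹ * ‖T‖ ^ (A i + e * m j0 i) ≤ (p : ℝ)⁻¹ * 1 := by gcongr
        _ < 1 := by rw [mul_one]; exact h2
    obtain ⟨R, hR⟩ := ((PolyOn.id.pow (e * (c j0).valuation)).mul (PolyOn.aeval hYpoly P))
    refine ⟨R, fun T hT => ?_⟩
    rw [← hR T hT]
    have h2 := hP (Y T) (hYn T hT)
    beta_reduce
    rw [← h2, ← mul_assoc, ← tsum_mul_left]
    congr 1
    · rw [← tsum_congr_set_coe (fun u : Fin n → ℕ => T ^ (e * (c j0).valuation) *
        ∏ i, Y T i ^ u i) hset]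
      refine tsum_congr fun u => ?_
      have h5 : pat m c B u.1 = ρ := u.2
      have h6 := hpat0 u.1 h5
      unfold WW NN
      rw [← h6, hYprod]
      unfold dl
      ring
    · refine Finset.prod_congr rfl fun q _ => ?_
      rw [hYprod, hmin q]
      rfl


/-! ### the sum over the order on the units -/

section HH

variable (C : ℕ → ℝ) (B e : ℕ)

/-- the sum over the order -/
noncomputable def HS (C : ℕ → ℝ) (e : ℕ) (T : ℂ) : ℂ :=
  ∑' l : ℕ, ((C l - C (l + 1) : ℝ) : ℂ) * T ^ (e * l)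

lemma norm_q : ‖((p : ℂ)⁻¹)‖ < 1 := by
  rw [norm_inv, Complex.norm_natCast]
  exact inv_lt_one_of_one_lt₀ (by exact_mod_cast hp.out.one_lt)

lemma norm_qT {T : ℂ} (hT : ‖T‖ ≤ 1) (e : ℕ) : ‖((p : ℂ)⁻¹) * T ^ e‖ < 1 := by
  rw [norm_mul, norm_pow]
  calc ‖((p : ℂ)⁻¹)‖ * ‖T‖ ^ e ≤ ‖((p : ℂ)⁻¹)‖ * 1 := by
        gcongr
        exact pow_le_one₀ (norm_nonneg _) hT
    _ < 1 := by rw [mul_one]; exact norm_q

lemma HS_tail (hC : ∀ l, C (B + l) = ((p : ℝ)⁻¹) ^ l * C B) (T : ℂ) (l : ℕ) :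
    ((C (l + B) - C (l + B + 1) : ℝ) : ℂ) * T ^ (e * (l + B)) =
      ((C B : ℂ) * (1 - (p : ℂ)⁻¹) * T ^ (e * B)) * (((p : ℂ)⁻¹) * T ^ e) ^ l := by
  have h1 : C (l + B) = ((p : ℝ)⁻¹) ^ l * C B := by rw [add_comm, hC]
  have h2 : C (l + B + 1) = ((p : ℝ)⁻¹) ^ (l + 1) * C B := by
    rw [show l + B + 1 = B + (l + 1) by ring, hC]
  rw [h1, h2]
  push_cast
  rw [mul_pow, ← pow_mul, mul_add, pow_add]
  ring

lemma HS_summable (hC : ∀ l, C (B + l) = ((p : ℝ)⁻¹) ^ l * C B) {T : ℂ} (hT : ‖T‖ ≤ 1) :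
    Summable fun l : ℕ => ((C l - C (l + 1) : ℝ) : ℂ) * T ^ (e * l) := by
  rw [← summable_nat_add_iff B]
  simp only [HS_tail C B e hC T]
  exact (summable_geometric_of_norm_lt_one (norm_qT hT e)).mul_left _

lemma HS_poly (hC : ∀ l, C (B + l) = ((p : ℝ)⁻¹) ^ l * C B) :
    PolyOn fun T => (1 - ((p : ℂ)⁻¹) * T ^ e) * HS C e T := by
  obtain ⟨R, hR⟩ : PolyOn fun T => (1 - ((p : ℂ)⁻¹) * T ^ e) *
      (∑ l ∈ Finset.range B, ((C l - C (l + 1) : ℝ) : ℂ) * T ^ (e * l)) +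
      (C B : ℂ) * (1 - (p : ℂ)⁻¹) * T ^ (e * B) := by
    refine PolyOn.add (PolyOn.mul ?_ ?_) ?_
    · exact (PolyOn.const _).sub ((PolyOn.const _).mul (PolyOn.id.pow _))
    · exact PolyOn.sum _ fun l => (PolyOn.const _).mul (PolyOn.id.pow _)
    · exact (PolyOn.const _).mul (PolyOn.id.pow _)
  refine ⟨R, fun T hT => ?_⟩
  rw [← hR T hT]
  beta_reduce
  unfold HS
  rw [← (HS_summable (p := p) C B e hC hT).sum_add_tsum_nat_add B]
  simp only [HS_tail C B e hC T]
  rw [tsum_mul_left, tsum_geometric_of_norm_lt_one (norm_qT (p := p) hT e), mul_add]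
  congr 1
  have h1 : 1 - ((p : ℂ)⁻¹) * T ^ e ≠ 0 := by
    intro h
    have h2 : ((p : ℂ)⁻¹) * T ^ e = 1 := (sub_eq_zero.1 h).symm
    have h3 := norm_qT (p := p) hT e
    rw [h2, norm_one] at h3
    exact lt_irrefl _ h3
  rw [mul_left_comm, mul_inv_cancel₀ h1, mul_one]

end HH

/-! ### the zeta function -/

section zeta

variable [MeasurableSpace (Fin n → ℤ_[p])] [BorelSpace (Fin n → ℤ_[p])]

lemma summable_SS (hk : 0 < k) (m : Fin k → Fin n → ℕ) (hm : AffInd m) (c : Fin k → ℤ_[p])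
    (hc : ∀ j, c j ≠ 0) : Summable fun w : (Fin n → ℕ) × ℕ =>
      ((Measure.addHaar : Measure (Fin n → ℤ_[p])) (SS m c w)).toReal := by
  refine ENNReal.summable_toReal ?_
  rw [← measure_total hk m hm c hc]
  exact measure_ne_top _ _

lemma summable_SST (hk : 0 < k) (m : Fin k → Fin n → ℕ) (hm : AffInd m) (c : Fin k → ℤ_[p])
    (hc : ∀ j, c j ≠ 0) (N : (Fin n → ℕ) × ℕ → ℕ) {T : ℂ} (hT : ‖T‖ ≤ 1) :
    Summable fun w : (Fin n → ℕ) × ℕ =>
      (((Measure.addHaar : Measure (Fin n → ℤ_[p])) (SS m c w)).toReal : ℂ) * T ^ N w := by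
  refine Summable.of_norm_bounded (summable_SS hk m hm c hc) fun w => ?_
  rw [norm_mul, norm_pow, Complex.norm_real, Real.norm_of_nonneg ENNReal.toReal_nonneg]
  exact mul_le_of_le_one_right ENNReal.toReal_nonneg (pow_le_one₀ (norm_nonneg _) hT)

/-- the zeta function, as the sum over the strata -/
noncomputable def ZT (A : Fin n → ℕ) (m : Fin k → Fin n → ℕ) (c : Fin k → ℤ_[p]) (e : ℕ)
    (T : ℂ) : ℂ := ∑' w : (Fin n → ℕ) × ℕ,
      (((Measure.addHaar : Measure (Fin n → ℤ_[p])) (SS m c w)).toReal : ℂ) *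
        T ^ ph A m c e w

lemma hasSum_level (hk : 0 < k) (A : Fin n → ℕ) (m : Fin k → Fin n → ℕ) (hm : AffInd m)
    (c : Fin k → ℤ_[p]) (hc : ∀ j, c j ≠ 0) (e : ℕ) (he : 0 < e) {T : ℂ} (hT : ‖T‖ ≤ 1) :
    HasSum (fun M : ℕ => (((Measure.addHaar : Measure (Fin n → ℤ_[p]))
      (DM A m c e M \ DM A m c e (M + 1))).toReal : ℂ) * T ^ M) (ZT A m c e T) := by
  have h1 := (summable_SST hk m hm c hc (ph A m c e) hT).hasSum.tsum_fiberwise (ph A m c e)
  have h3 : (fun M : ℕ => (((Measure.addHaar : Measure (Fin n → ℤ_[p]))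
      (DM A m c e M \ DM A m c e (M + 1))).toReal : ℂ) * T ^ M) = fun M : ℕ =>
      ∑' w : (ph A m c e ⁻¹' {M}), (((Measure.addHaar : Measure (Fin n → ℤ_[p]))
        (SS m c w)).toReal : ℂ) * T ^ ph A m c e w := by
    funext M
    rw [measure_level A m c hc e he M, ENNReal.tsum_toReal_eq (fun _ => measure_ne_top _ _),
      Complex.ofReal_tsum, ← tsum_mul_right]
    refine tsum_congr fun w => ?_
    have h2 : ph A m c e w.1 = M := w.2
    rw [h2]
  rw [h3]
  exact h1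

lemma ZT_one (hk : 0 < k) (A : Fin n → ℕ) (m : Fin k → Fin n → ℕ) (hm : AffInd m)
    (c : Fin k → ℤ_[p]) (hc : ∀ j, c j ≠ 0) (e : ℕ) :
    ZT A m c e 1 = (((Measure.addHaar : Measure (Fin n → ℤ_[p])) Set.univ).toReal : ℂ) := by
  unfold ZT
  simp only [one_pow, mul_one]
  rw [measure_total hk m hm c hc, ENNReal.tsum_toReal_eq (fun _ => measure_ne_top _ _),
    Complex.ofReal_tsum]

/-- rationality of the zeta function, with the factors of the rays only -/
theorem zeta_rational (hk : 0 < k) (A : Fin n → ℕ) (m : Fin k → Fin n → ℕ) (hm : AffInd m)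
    (c : Fin k → ℤ_[p]) (hc : ∀ j, c j ≠ 0) (e : ℕ) :
    ∃ (E : ℕ) (ray : Fin E → Fin n → ℕ), (∀ q, IsRay m (ray q)) ∧
      PolyOn fun T => (1 - ((p : ℂ)⁻¹) * T ^ e) * (∏ q, (1 - WW p T (ford A m e) (ray q))) *
        ZT A m c e T := by
  classical
  obtain ⟨B, C, hB1, hBC, hE⟩ := measure_EE (p := p) m hm hk c hc
  -- the patterns
  set I := {ρ : Fin k → Fin (B + 1) // ∃ j, ρ j = 0} with hI
  have hkey : ∀ ρ : I, ∃ (E : ℕ) (ray : Fin E → Fin n → ℕ), (∀ q, IsRay m (ray q)) ∧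
      PolyOn fun T => (∑' u : ({u | pat m c B u = fun j => (ρ.1 j : ℕ)} : Set (Fin n → ℕ)),
        WW p T (NN A m c e) u) * ∏ q, (1 - WW p T (ford A m e) (ray q)) := by
    intro ρ
    refine key_pat A m c e B hB1 _ (fun j => Nat.lt_succ_iff.1 (ρ.1 j).2) ?_
    obtain ⟨j, hj⟩ := ρ.2
    exact ⟨j, by rw [hj]; rfl⟩
  choose E ray hray hpoly using hkey
  set J := (Σ ρ : I, Fin (E ρ)) with hJ
  set ψ : J ≃ Fin (Fintype.card J) := Fintype.equivFin J with hψ
  set D : I → ℂ → ℂ := fun ρ T => ∏ q, (1 - WW p T (ford A m e) (ray ρ q)) with hD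
  set V : ℂ := (((Measure.addHaar : Measure (Fin n → ℤ_[p])) Set.univ).toReal : ℂ) with hV
  have hWpoly : ∀ (N : (Fin n → ℕ) → ℕ) (u : Fin n → ℕ), PolyOn fun T => WW p T N u :=
    fun N u => (PolyOn.const _).mul (PolyOn.id.pow _)
  have hDpoly : ∀ ρ, PolyOn (D ρ) := fun ρ =>
    PolyOn.prod _ fun q => (PolyOn.const _).sub (hWpoly _ _)
  have hHpoly : ∀ ρ : I, PolyOn fun T => (1 - ((p : ℂ)⁻¹) * T ^ e) *
      HS (C fun j => (ρ.1 j : ℕ)) e T := by
    intro ρ
    refine HS_poly _ B e (hBC _ ?_)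
    obtain ⟨j, hj⟩ := ρ.2
    exact ⟨j, by rw [hj]; rfl⟩
  -- the measure of a stratum
  have hSS : ∀ w : (Fin n → ℕ) × ℕ,
      (((Measure.addHaar : Measure (Fin n → ℤ_[p])) (SS m c w)).toReal : ℂ) =
        V * (((p : ℂ)⁻¹) ^ (∑ i, w.1 i) *
          ((C (pat m c B w.1) w.2 - C (pat m c B w.1) (w.2 + 1) : ℝ) : ℂ)) := by
    intro w
    unfold SS
    have hsub : EE m c w.1 (w.2 + 1) ⊆ EE m c w.1 w.2 := fun y hy =>
      ⟨hy.1, (pow_dvd_pow _ (by omega)).trans hy.2⟩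
    rw [measure_sdiff hsub (meas_EE m c _ _).nullMeasurableSet (measure_ne_top _ _),
      ENNReal.toReal_sub_of_le (measure_mono hsub) (measure_ne_top _ _), hE, hE]
    push_cast
    ring
  -- the sum over the order
  have hsumu : ∀ T : ℂ, ‖T‖ ≤ 1 → ZT A m c e T = ∑' u : Fin n → ℕ,
      V * (WW p T (NN A m c e) u * HS (C (pat m c B u)) e T) := by
    intro T hT
    unfold ZT
    rw [(summable_SST hk m hm c hc (ph A m c e) hT).tsum_prod]
    refine tsum_congr fun u => ?_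
    simp only [hSS]
    unfold HS
    rw [← tsum_mul_left, ← tsum_mul_left]
    refine tsum_congr fun l => ?_
    unfold WW NN ph
    simp only [mul_add, pow_add]
    ring
  have hsummu : ∀ T : ℂ, ‖T‖ ≤ 1 → Summable fun u : Fin n → ℕ =>
      V * (WW p T (NN A m c e) u * HS (C (pat m c B u)) e T) := by
    intro T hT
    have h1 := (summable_SST hk m hm c hc (ph A m c e) hT).prod
    refine h1.congr fun u => ?_
    simp only [hSS]
    unfold HS
    rw [← tsum_mul_left, ← tsum_mul_left]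
    refine tsum_congr fun l => ?_
    unfold WW NN ph
    simp only [mul_add, pow_add]
    ring
  -- the patterns again
  have hpatI : ∀ u : Fin n → ℕ, ∃ ρ : I, (fun j => (ρ.1 j : ℕ)) = pat m c B u := by
    intro u
    obtain ⟨j, hj⟩ := N0_mem hk m c u
    have hlt : ∀ j, pat m c B u j < B + 1 := fun j => by
      unfold pat
      exact Nat.lt_succ_of_le (min_le_right _ _)
    refine ⟨⟨fun j => ⟨pat m c B u j, hlt j⟩, j, ?_⟩, rfl⟩
    apply Fin.ext
    show pat m c B u j = 0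
    unfold pat
    rw [hj]
    simp
  choose φ hφ using hpatI
  have hsplit : ∀ T : ℂ, ‖T‖ ≤ 1 → ZT A m c e T = ∑ ρ : I,
      V * ((∑' u : ({u | pat m c B u = fun j => (ρ.1 j : ℕ)} : Set (Fin n → ℕ)),
        WW p T (NN A m c e) u) * HS (C fun j => (ρ.1 j : ℕ)) e T) := by
    intro T hT
    rw [hsumu T hT]
    have h3 := (Equiv.sigmaFiberEquiv φ).tsum_eq
      (fun u : Fin n → ℕ => V * (WW p T (NN A m c e) u * HS (C (pat m c B u)) e T))
    have h4 : Summable (fun x : (Σ ρ, {u // φ u = ρ}) =>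
        V * (WW p T (NN A m c e) ((Equiv.sigmaFiberEquiv φ) x) *
          HS (C (pat m c B ((Equiv.sigmaFiberEquiv φ) x))) e T)) :=
      (Equiv.summable_iff (Equiv.sigmaFiberEquiv φ)).2 (hsummu T hT)
    rw [← h3, h4.tsum_sigma, tsum_fintype]
    refine Finset.sum_congr rfl fun ρ _ => ?_
    rw [← tsum_mul_right, ← tsum_mul_left]
    have h5 : ({u | pat m c B u = fun j => (ρ.1 j : ℕ)} : Set (Fin n → ℕ)) =
        {u | φ u = ρ} := by
      ext u
      simp only [Set.mem_ofPred_eq]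
      rw [← hφ u]
      constructor
      · intro h
        apply Subtype.ext
        funext j
        exact Fin.ext (congrFun h j)
      · intro h
        rw [h]
    rw [tsum_congr_set_coe (fun u : Fin n → ℕ => V * (WW p T (NN A m c e) u *
      HS (C fun j => (ρ.1 j : ℕ)) e T)) h5]
    refine tsum_congr fun u => ?_
    have h6 : (fun j => (ρ.1 j : ℕ)) = pat m c B u.1 := by
      have h7 : φ u.1 = ρ := u.2
      have h8 := hφ u.1
      rw [h7] at h8
      exact h8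
    show V * (WW p T (NN A m c e) u.1 * HS (C (pat m c B u.1)) e T) = _
    rw [h6]
  refine ⟨Fintype.card J, fun q => ray (ψ.symm q).1 (ψ.symm q).2, fun q => hray _ _, ?_⟩
  obtain ⟨R, hR⟩ : PolyOn fun T => V * ∑ ρ : I,
      ((1 - ((p : ℂ)⁻¹) * T ^ e) * HS (C fun j => (ρ.1 j : ℕ)) e T) *
      ((∑' u : ({u | pat m c B u = fun j => (ρ.1 j : ℕ)} : Set (Fin n → ℕ)),
        WW p T (NN A m c e) u) * ∏ q, (1 - WW p T (ford A m e) (ray ρ q))) *
      ∏ ρ' ∈ Finset.univ.erase ρ, D ρ' T := by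
    refine (PolyOn.const _).mul (PolyOn.sum _ fun ρ => ?_)
    exact ((hHpoly ρ).mul (hpoly ρ)).mul (PolyOn.prod _ fun ρ' => hDpoly ρ')
  refine ⟨R, fun T hT => ?_⟩
  rw [← hR T hT]
  beta_reduce
  have hprod : ∏ q : Fin (Fintype.card J),
      (1 - WW p T (ford A m e) (ray (ψ.symm q).1 (ψ.symm q).2)) = ∏ ρ, D ρ T := by
    rw [Equiv.prod_comp ψ.symm (fun x : J => 1 - WW p T (ford A m e) (ray x.1 x.2)),
      Fintype.prod_sigma]
  rw [hprod, hsplit T hT, Finset.mul_sum, Finset.mul_sum]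
  refine Finset.sum_congr rfl fun ρ _ => ?_
  rw [← Finset.mul_prod_erase Finset.univ (fun ρ => D ρ T) (Finset.mem_univ ρ)]
  simp only [hD]
  ring

end zeta

end Pool.Agent.W422.SM
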